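import Pool.Agent.H69.TRI.StmtsP
import Pool.Agent.H89.TRI.Targets

open MeasureTheory Set Filter Topology InnerProductSpace Metric
open scoped Real ComplexConjugate ContDiff Laplacian

namespace Pool.TRI.A

theorem equi (h1 : EqMStmt) (h2 : EqLStmt) : Pool.TRI.EquiStmt := by
  intro T B u hu h01 h12
  have hM := h1 T B u hu h01 h12
  have hL := h2 T B h01 h12
  rw [hL]
  linear_combination (8 * π ^ 2) * hM

end Pool.TRI.A
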