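import Pool.Agent.H69.TRI.StmtsP

open MeasureTheory Set Filter Topology InnerProductSpace Metric
open scoped Real ComplexConjugate ContDiff Laplacian

namespace Pool.TRI.A

private noncomputable def gradL {T : Set ℂ} (B : Bary T) : ℂ →L[ℝ] (Fin 3 → ℝ) :=
  ContinuousLinearMap.pi fun k => Complex.reCLM.comp ((ContinuousLinearMap.mul ℝ ℂ).flip (conj (B.g k)))

private theorem gradL_apply {T : Set ℂ} (B : Bary T) (v : ℂ) (k : Fin 3) :
    gradL B v k = (v * conj (B.g k)).re := rfl

private theorem grad_hasF {T : Set ℂ} (B : Bary T) (z : ℂ) :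
    HasFDerivAt (fun z => fun k => B.x k z) (gradL B) z := by
  have : (fun z => fun k => B.x k z) = fun z => gradL B z + B.b := by funext z; rfl
  rw [this]
  exact (gradL B).hasFDerivAt.add_const _

private theorem grad_vec (v : Fin 3 → ℝ) : v = v 0 • Pi.single 0 1 + v 1 • Pi.single 1 1 + v 2 • Pi.single 2 1 := by
  funext k
  fin_cases k <;> simp

private theorem grad_norm (φ : ℂ →L[ℝ] ℝ) : ‖φ‖ ^ 2 = φ 1 ^ 2 + φ Complex.I ^ 2 := by
  set G : ℂ := ⟨φ 1, φ Complex.I⟩ with hG
  have hφ : ∀ v : ℂ, φ v = v.re * φ 1 + v.im * φ Complex.I := by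
    intro v
    have e : v = (v.re : ℝ) • (1 : ℂ) + (v.im : ℝ) • Complex.I := by
      apply Complex.ext <;> simp
    conv_lhs => rw [e]
    rw [map_add, map_smul, map_smul]
    simp
  have hGn : ‖G‖ ^ 2 = φ 1 ^ 2 + φ Complex.I ^ 2 := by
    rw [Complex.sq_norm, Complex.normSq_apply, hG]; ring
  rw [← hGn]
  have h1 : ‖φ‖ ≤ ‖G‖ := by
    apply ContinuousLinearMap.opNorm_le_bound _ (norm_nonneg _)
    intro v
    rw [hφ v, Real.norm_eq_abs]
    have e : v.re * φ 1 + v.im * φ Complex.I = (conj G * v).re := by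
      rw [hG]; simp [Complex.mul_re]; ring
    rw [e]
    refine (Complex.abs_re_le_norm _).trans ?_
    rw [norm_mul, RCLike.norm_conj]
  have h2 : ‖G‖ ≤ ‖φ‖ := by
    by_cases h0 : ‖G‖ = 0
    · rw [h0]; exact norm_nonneg _
    · have hpos : 0 < ‖G‖ := lt_of_le_of_ne (norm_nonneg _) (Ne.symm h0)
      have h3 := φ.le_opNorm G
      rw [hφ G] at h3
      have e : G.re * φ 1 + G.im * φ Complex.I = ‖G‖ ^ 2 := by rw [hGn, hG]; ring
      rw [e, Real.norm_eq_abs, abs_of_nonneg (by positivity), pow_two] at h3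
      exact le_of_mul_le_mul_right h3 hpos
  rw [le_antisymm h1 h2]

theorem grad : GradStmt := by
  intro T B F z hF
  set x0 : Fin 3 → ℝ := fun k => B.x k z with hx0
  have hd : fderiv ℝ (fun z => F (fun k => B.x k z)) z = (fderiv ℝ F x0).comp (gradL B) :=
    (hF.hasFDerivAt.comp z (grad_hasF B z)).fderiv
  rw [hd, grad_norm, ContinuousLinearMap.comp_apply, ContinuousLinearMap.comp_apply]
  set H := fderiv ℝ F x0 with hH
  have i01 : (0 : Fin 3) + 1 = 1 := rfl
  have i02 : (0 : Fin 3) + 2 = 2 := rfl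
  have i11 : (1 : Fin 3) + 1 = 2 := rfl
  have i12 : (1 : Fin 3) + 2 = 0 := rfl
  have i21 : (2 : Fin 3) + 1 = 0 := rfl
  have i22 : (2 : Fin 3) + 2 = 1 := rfl
  rw [grad_vec (gradL B 1), grad_vec (gradL B Complex.I), Fin.sum_univ_three]
  unfold Bary.c DD
  rw [i01, i02, i11, i12, i21, i22]
  have hx0' : fderiv ℝ F (fun i => B.x i z) = H := rfl
  rw [hx0']
  simp only [map_add, map_sub, map_smul, smul_eq_mul, gradL_apply, one_mul]
  have hs0 := congrArg Complex.re B.sum_g
  have hs1 := congrArg Complex.im B.sum_g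
  simp only [Complex.add_re, Complex.add_im, Complex.zero_re, Complex.zero_im] at hs0 hs1
  simp only [Complex.mul_re, Complex.conj_re, Complex.conj_im, Complex.I_re, Complex.I_im]
  have r2 : (B.g 2).re = -(B.g 0).re - (B.g 1).re := by linarith
  have m2 : (B.g 2).im = -(B.g 0).im - (B.g 1).im := by linarith
  rw [r2, m2]
  ring

end Pool.TRI.A
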