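import Pool.Agent.H69.TRI.StmtsP

open MeasureTheory Set Filter Topology InnerProductSpace Metric
open scoped Real ComplexConjugate ContDiff Laplacian

namespace Pool.TRI.A

private noncomputable def lapbL {T : Set ℂ} (B : Bary T) : ℂ →L[ℝ] (Fin 3 → ℝ) :=
  ContinuousLinearMap.pi fun k => Complex.reCLM.comp ((ContinuousLinearMap.mul ℝ ℂ).flip (conj (B.g k)))

private theorem lapbL_apply {T : Set ℂ} (B : Bary T) (v : ℂ) (k : Fin 3) :
    lapbL B v k = (v * conj (B.g k)).re := rfl

private theorem lapb_x {T : Set ℂ} (B : Bary T) (z : ℂ) : (fun k => B.x k z) = lapbL B z + B.b := by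
  funext k; rfl

private theorem lapb_hasF {T : Set ℂ} (B : Bary T) (z : ℂ) :
    HasFDerivAt (fun z => fun k => B.x k z) (lapbL B) z := by
  have : (fun z => fun k => B.x k z) = fun z => lapbL B z + B.b := by funext z; exact lapb_x B z
  rw [this]
  exact (lapbL B).hasFDerivAt.add_const _

private theorem lapb_vec (v : Fin 3 → ℝ) : v = v 0 • Pi.single 0 1 + v 1 • Pi.single 1 1 + v 2 • Pi.single 2 1 := by
  funext k
  fin_cases k <;> simp

theorem lapb : LapBStmt := by
  intro T B F hF z
  have hF1 : Differentiable ℝ F := hF.differentiable (by norm_num)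
  have hF2 : Differentiable ℝ (fderiv ℝ F) := (hF.fderiv_right (m := 1) (by norm_num)).differentiable (by norm_num)
  set x0 : Fin 3 → ℝ := fun k => B.x k z with hx0
  set H := fderiv ℝ (fderiv ℝ F) x0 with hH
  have hsym : ∀ u v, H u v = H v u := by
    intro u v
    have := (hF.contDiffAt (x := x0)).isSymmSndFDerivAt (by simp)
    exact this u v
  -- second derivative of the composition
  have hd1 : ∀ y : ℂ, fderiv ℝ (fun z => F (fun k => B.x k z)) y = (fderiv ℝ F (fun k => B.x k y)).comp (lapbL B) := by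
    intro y
    exact ((hF1 _).hasFDerivAt.comp y (lapb_hasF B y)).fderiv
  have hd2 : ∀ v w : ℂ, fderiv ℝ (fderiv ℝ (fun z => F (fun k => B.x k z))) z v w = H (lapbL B v) (lapbL B w) := by
    intro v w
    have e : fderiv ℝ (fun z => F (fun k => B.x k z)) = fun y => (fderiv ℝ F (fun k => B.x k y)).comp (lapbL B) := by
      funext y; exact hd1 y
    rw [e]
    have h1 : HasFDerivAt (fun y => fderiv ℝ F (fun k => B.x k y)) (H.comp (lapbL B)) z :=
      (hF2 x0).hasFDerivAt.comp z (lapb_hasF B z)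
    have h2 := h1.clm_comp (hasFDerivAt_const (lapbL B) z)
    rw [h2.fderiv]
    simp
  have hlap : (Δ fun z => F (fun k => B.x k z)) z = H (lapbL B 1) (lapbL B 1)
      + H (lapbL B Complex.I) (lapbL B Complex.I) := by
    rw [laplacian_eq_iteratedFDeriv_complexPlane]
    simp only [iteratedFDeriv_two_apply]
    rw [hd2, hd2]
    simp
  rw [hlap]
  have hDD : ∀ k, DD k (DD k F) x0 = H (Pi.single (k + 1) 1 - Pi.single (k + 2) 1)
      (Pi.single (k + 1) 1 - Pi.single (k + 2) 1) := by
    intro k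
    unfold DD
    have h1 := (hF2 x0).hasFDerivAt.clm_apply
      (hasFDerivAt_const (Pi.single (k + 1) (1 : ℝ) - Pi.single (k + 2) 1 : Fin 3 → ℝ) x0)
    rw [h1.fderiv]
    simp only [ContinuousLinearMap.comp_zero, zero_add, ContinuousLinearMap.flip_apply, ← hH]
  rw [Fin.sum_univ_three, hDD, hDD, hDD]
  have h10 := hsym (Pi.single 1 1) (Pi.single 0 1)
  have h20 := hsym (Pi.single 2 1) (Pi.single 0 1)
  have h21 := hsym (Pi.single 2 1) (Pi.single 1 1)
  have i01 : (0 : Fin 3) + 1 = 1 := rfl
  have i02 : (0 : Fin 3) + 2 = 2 := rfl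
  have i11 : (1 : Fin 3) + 1 = 2 := rfl
  have i12 : (1 : Fin 3) + 2 = 0 := rfl
  have i21 : (2 : Fin 3) + 1 = 0 := rfl
  have i22 : (2 : Fin 3) + 2 = 1 := rfl
  rw [lapb_vec (lapbL B 1), lapb_vec (lapbL B Complex.I)]
  unfold Bary.c
  rw [i01, i02, i11, i12, i21, i22]
  simp only [map_add, map_sub, map_smul, ContinuousLinearMap.add_apply, ContinuousLinearMap.sub_apply,
    ContinuousLinearMap.smul_apply, smul_eq_mul, lapbL_apply, one_mul, h10, h20, h21]
  have hs0 := congrArg Complex.re B.sum_g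
  have hs1 := congrArg Complex.im B.sum_g
  simp only [Complex.add_re, Complex.add_im, Complex.zero_re, Complex.zero_im] at hs0 hs1
  simp only [Complex.mul_re, Complex.conj_re, Complex.conj_im, Complex.I_re, Complex.I_im]
  have r2 : (B.g 2).re = -(B.g 0).re - (B.g 1).re := by linarith
  have m2 : (B.g 2).im = -(B.g 0).im - (B.g 1).im := by linarith
  rw [r2, m2]
  ring

end Pool.TRI.A
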