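import Pool.Agent.H69.TRI.StmtsP

open MeasureTheory Set Filter Topology InnerProductSpace Metric
open scoped Real ComplexConjugate ContDiff Laplacian

namespace Pool.TRI.A

theorem near (h1 : NearMStmt) (h2 : NearLStmt) : NearOrdStmt := by
  intro T B u hu h21 h10 hn hne
  have hM := h1 T B u hu h21 h10 hn
  have hL := h2 T B h21 h10 hn
  set c0 := B.c 0 with hc0
  set c1 := B.c 1 with hc1
  set c2 := B.c 2 with hc2
  -- positivity of c0
  have hg : (B.g 0 * (starRingEnd ℂ) (B.g 1)).im ≠ 0 := B.indep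
  have hid : B.c 0 * B.c 1 + B.c 1 * B.c 2 + B.c 2 * B.c 0 = ((B.g 0 * (starRingEnd ℂ) (B.g 1)).im) ^ 2 := by
    have hs : B.g 2 = - B.g 0 - B.g 1 := by
      have := B.sum_g; linear_combination this
    unfold Bary.c
    have e0 : (0 : Fin 3) + 1 = 1 := rfl
    have e0' : (0 : Fin 3) + 2 = 2 := rfl
    have e1 : (1 : Fin 3) + 1 = 2 := rfl
    have e1' : (1 : Fin 3) + 2 = 0 := rfl
    have e2 : (2 : Fin 3) + 1 = 0 := rfl
    have e2' : (2 : Fin 3) + 2 = 1 := rfl
    rw [e0, e0', e1, e1', e2, e2', hs]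
    simp only [Complex.mul_re, Complex.mul_im, Complex.sub_re, Complex.sub_im, Complex.neg_re, Complex.neg_im,
      Complex.conj_re, Complex.conj_im, map_sub, map_neg]
    ring
  have hpos : 0 < c0 * c1 + c1 * c2 + c2 * c0 := by
    rw [hc0, hc1, hc2, hid]; positivity
  have hc0pos : 0 < c0 := by
    by_contra hneg
    push Not at hneg
    -- c0 ≤ 0, then c2 ≥ .994 c0 and c2 ≤ c1 ≤ c0 ≤ 0 force c0 = 0
    have h3 : 994 / 1000 * c0 ≤ c2 := by linarith
    have h4 : c2 ≤ c0 := by linarith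
    have h5 : c0 = 0 := by linarith
    have h6 : c2 = 0 := by linarith
    have h7 : c1 = 0 := by linarith
    rw [h5, h6, h7] at hpos
    norm_num at hpos
  have hS : 0 < (c0 + c1 + c2) / 3 := by linarith
  have hE : 0 < e2 B := by
    unfold e2
    apply div_pos _ (by positivity)
    by_contra hcon
    have a0 := sq_nonneg (B.c 0 - (B.c 0 + B.c 1 + B.c 2) / 3)
    have a1 := sq_nonneg (B.c 1 - (B.c 0 + B.c 1 + B.c 2) / 3)
    have a2 := sq_nonneg (B.c 2 - (B.c 0 + B.c 1 + B.c 2) / 3)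
    push Not at hcon
    have b0 : (B.c 0 - (B.c 0 + B.c 1 + B.c 2) / 3) ^ 2 = 0 := by linarith
    have b1 : (B.c 1 - (B.c 0 + B.c 1 + B.c 2) / 3) ^ 2 = 0 := by linarith
    have b2 : (B.c 2 - (B.c 0 + B.c 1 + B.c 2) / 3) ^ 2 = 0 := by linarith
    have d0 := pow_eq_zero_iff (two_ne_zero) |>.mp b0
    have d1 := pow_eq_zero_iff (two_ne_zero) |>.mp b1
    have d2 := pow_eq_zero_iff (two_ne_zero) |>.mp b2
    exact hne ⟨by linarith, by linarith⟩
  set e := e2 B with he
  have hl0 : 0 ≤ lambda1 T := by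
    apply Real.sInf_nonneg
    rintro r ⟨v, hv, rfl⟩
    exact div_nonneg (integral_nonneg fun z => by positivity) (integral_nonneg fun z => by positivity)
  set S := (c0 + c1 + c2) / 3 with hSdef
  have hM' : sSup (u '' T) ≤ (1 + 398 / 10000 * e) / (27 * S) := by
    rw [le_div_iff₀ (by positivity)]
    calc sSup (u '' T) * (27 * S) = 9 * (c0 + c1 + c2) * sSup (u '' T) := by rw [hSdef]; ring
      _ ≤ _ := hM
  have hL' : lambda1 T ≤ 8 * π ^ 2 * S * (1 - 399 / 10000 * e) := hL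
  have hb : 0 ≤ (1 + 398 / 10000 * e) / (27 * S) := by positivity
  calc lambda1 T * sSup (u '' T) ≤ lambda1 T * ((1 + 398 / 10000 * e) / (27 * S)) :=
        mul_le_mul_of_nonneg_left hM' hl0
    _ ≤ (8 * π ^ 2 * S * (1 - 399 / 10000 * e)) * ((1 + 398 / 10000 * e) / (27 * S)) :=
        mul_le_mul_of_nonneg_right hL' hb
    _ = 8 * π ^ 2 / 27 * ((1 - 399 / 10000 * e) * (1 + 398 / 10000 * e)) := by
        field_simp
    _ < 8 * π ^ 2 / 27 * 1 := by
        apply mul_lt_mul_of_pos_left _ (by positivity)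
        nlinarith [sq_nonneg e]
    _ = 8 * π ^ 2 / 27 := by ring

end Pool.TRI.A
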