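import Pool.Agent.H69.TRI.StmtsP

open MeasureTheory Set Filter Topology InnerProductSpace Metric
open scoped Real ComplexConjugate ContDiff Laplacian

namespace Pool.TRI.A

theorem nearm (h1 : FrameStmt) (h2 : NormStmt) (hG : Geo1Stmt) : NearMStmt := by
  intro T B u hu h21 h10 hn
  obtain ⟨β, v, m, hβ, hv, hm, hc, hS⟩ := h1 T B u hu
  have c0 := hc 0
  have c1 := hc 1
  have c2 := hc 2
  simp only [Fin.val_zero, Fin.val_one, Fin.val_two, pow_zero, pow_one, one_mul] at c0 c1 c2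
  set s := ‖β‖ with hs
  have hs0 : 0 ≤ s := norm_nonneg _
  have m21 : B.c 2 * m ≤ B.c 1 * m := mul_le_mul_of_nonneg_right h21 hm.le
  have m10 : B.c 1 * m ≤ B.c 0 * m := mul_le_mul_of_nonneg_right h10 hm.le
  have mn : (1 - 6 / 1000) * B.c 0 * m ≤ B.c 2 * m := mul_le_mul_of_nonneg_right hn hm.le
  have hnear : Near β := by
    refine ⟨hβ, ?_, ?_, ?_⟩
    · linarith
    · linarith
    · rw [← hs]; linarith
  have hbound := h2 β v hnear hv
  have hom1 : om.re = -1 / 2 := rfl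
  have hom2 : om.im = √3 / 2 := rfl
  have h3 : √3 ^ 2 = 3 := Real.sq_sqrt (by norm_num)
  have hsum : β.re + (om * β).re + (om ^ 2 * β).re = 0 := by
    have h := hG.2.1
    have : ((1 + om + om ^ 2) * β).re = 0 := by rw [h]; simp
    have e : (1 + om + om ^ 2) * β = β + om * β + om ^ 2 * β := by ring
    rw [e, Complex.add_re, Complex.add_re] at this
    exact this
  have hsq : β.re ^ 2 + (om * β).re ^ 2 + (om ^ 2 * β).re ^ 2 = 3 / 2 * s ^ 2 := by
    have e1 : (om * β).re = -1 / 2 * β.re - √3 / 2 * β.im := by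
      rw [Complex.mul_re, hom1, hom2]
    have e2 : (om ^ 2 * β).re = -1 / 2 * β.re + √3 / 2 * β.im := by linarith
    have e3 : s ^ 2 = β.re ^ 2 + β.im ^ 2 := by
      rw [hs, Complex.sq_norm, Complex.normSq_apply]; ring
    rw [e1, e2, e3]
    linear_combination (β.im ^ 2 / 2) * h3
  have h1s : 0 < 1 + s ^ 2 := by positivity
  have htot : (B.c 0 + B.c 1 + B.c 2) * m = (1 + s ^ 2) / 6 := by
    linear_combination c0 + c1 + c2 - (4 / 18) * hsum
  have he2 : e2 B = 24 * s ^ 2 / (1 + s ^ 2) ^ 2 := by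
    unfold e2
    have hm' : m ≠ 0 := hm.ne'
    have hb : (B.c 0 + B.c 1 + B.c 2) / 3 = (1 + s ^ 2) / (18 * m) := by
      field_simp
      linarith
    have k0 : B.c 0 = (1 + s ^ 2 - 4 * β.re) / (18 * m) := by
      field_simp; linarith
    have k1 : B.c 1 = (1 + s ^ 2 - 4 * (om * β).re) / (18 * m) := by
      field_simp; linarith
    have k2 : B.c 2 = (1 + s ^ 2 - 4 * (om ^ 2 * β).re) / (18 * m) := by
      field_simp; linarith
    rw [hb, k0, k1, k2]
    have h1s' : (1 + s ^ 2) ≠ 0 := h1s.ne'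
    field_simp
    linear_combination 16 * hsq
  rw [he2]
  have hne : (v '' Tb β).Nonempty := by
    refine ⟨v 0, 0, ?_, rfl⟩
    intro k
    simp [X, aff]
  have hsup : sSup (v '' Tb β) ≤ (2 / 3 * (1 + 398 / 10000 * (24 * s ^ 2 / (1 + s ^ 2) ^ 2))) / (1 + s ^ 2) := by
    apply csSup_le hne
    rintro y ⟨ζ, hζ, rfl⟩
    rw [le_div_iff₀ h1s, mul_comm]
    exact hbound ζ hζ
  have hfin : 9 * (B.c 0 + B.c 1 + B.c 2) * sSup (u '' T) = 3 / 2 * ((1 + s ^ 2) * sSup (v '' Tb β)) := by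
    rw [hS]
    linear_combination (9 * sSup (v '' Tb β)) * htot
  rw [hfin]
  rw [le_div_iff₀ h1s] at hsup
  linarith

end Pool.TRI.A
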