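import Pool.Agent.H69.TRI.StmtsP

open MeasureTheory Set Filter Topology InnerProductSpace Metric
open scoped Real ComplexConjugate ContDiff Laplacian

namespace Pool.TRI.A

private theorem nrm_contDiff_ev (l : List (ℤ × ℕ × ℕ)) {n : WithTop ℕ∞} : ContDiff ℝ n (ev l) := by
  induction l with
  | nil =>
    have : ev [] = fun _ => (0 : ℂ) := by funext w; simp [ev]
    rw [this]; exact contDiff_const
  | cons t l ih =>
    have : ev (t :: l) = fun w => (t.1 : ℂ) * w ^ t.2.1 * (conj w) ^ t.2.2 + ev l w := by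
      funext w; simp [ev]
    rw [this]
    have hc : ContDiff ℝ n (fun w : ℂ => conj w) := Complex.conjCLE.contDiff
    exact ((contDiff_const.mul (contDiff_id.pow _)).mul (hc.pow _)).add ih

private theorem nrm_contDiff_X (k : Fin 3) {n : WithTop ℕ∞} : ContDiff ℝ n (X k) := by
  unfold X
  have : ContDiff ℝ n (fun w : ℂ => (w * (conj om) ^ (k : ℕ))) := contDiff_id.mul contDiff_const
  exact contDiff_const.add (Complex.reCLM.contDiff.comp this)

private theorem nrm_contDiff_E {n : WithTop ℕ∞} : ContDiff ℝ n E := by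
  unfold E
  exact ((nrm_contDiff_X 0).mul (nrm_contDiff_X 1)).mul (nrm_contDiff_X 2)

private theorem nrm_contDiff_f {n : WithTop ℕ∞} : ContDiff ℝ n f := by
  unfold f g
  have h1 : ContDiff ℝ n (fun w => ((E w : ℝ) : ℂ)) := Complex.ofRealCLM.contDiff.comp nrm_contDiff_E
  exact h1.mul ((nrm_contDiff_ev gl).div_const _)

private theorem nrm_contDiff_pp (β : ℂ) {n : WithTop ℕ∞} : ContDiff ℝ n (pp β) := by
  unfold pp F0
  exact (contDiff_const.mul nrm_contDiff_E).add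
    (Complex.reCLM.contDiff.comp (contDiff_const.mul nrm_contDiff_f))

private theorem nrm_contDiff_aff (β : ℂ) {n : WithTop ℕ∞} : ContDiff ℝ n (aff β) := by
  unfold aff
  have hc : ContDiff ℝ n (fun w : ℂ => conj w) := Complex.conjCLE.contDiff
  exact contDiff_id.add (contDiff_const.mul hc)

private theorem nrm_om_pow (hG : Geo1Stmt) (k : ℕ) : ‖(conj om) ^ k‖ = 1 := by
  rw [norm_pow, RCLike.norm_conj, hG.2.2.2.1, one_pow]

private theorem nrm_X_ge (hG : Geo1Stmt) (k : Fin 3) (w : ℂ) : 1 - ‖w‖ ≤ X k w := by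
  unfold X
  have h := Complex.abs_re_le_norm (w * (conj om) ^ (k : ℕ))
  rw [norm_mul, nrm_om_pow hG, mul_one, abs_le] at h
  linarith

private theorem nrm_f0 : f 0 = 0 := by
  unfold f g
  simp [ev, gl]

private theorem nrm_lap (c : ℝ) (v P : ℂ → ℝ) (z : ℂ) (hv : ContDiffAt ℝ 2 v z) (hP : ContDiffAt ℝ 2 P z) :
    (Δ (fun z : ℂ => c * v z - P z)) z = c * (Δ v) z - (Δ P) z := by
  have hcv : ContDiffAt ℝ 2 (fun z : ℂ => c * v z) z := contDiffAt_const.mul hv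
  have e1 : (fun z : ℂ => c * v z - P z) = (fun z : ℂ => c * v z) - P := rfl
  have e2 : (fun z : ℂ => c * v z) = c • v := rfl
  rw [e1, ContDiffAt.laplacian_sub hcv hP, e2, InnerProductSpace.laplacian_smul c hv]
  rfl

private theorem nrm_final {s t z : ℝ} (hs0 : 0 ≤ s) (hs : s ≤ 1005 / 1000000) (ht : 0 ≤ t) (ht2 : t < 5 / 1000)
    (hz0 : 0 ≤ z) (hz : z * (1 - s) ≤ t) :
    2 / 3 - t ^ 2 / 2 + t ^ 3 / 6 + s * (6974 / 10000 * t) + s ^ 2 * (2 / 3 + (-28141097) / 10 ^ 8) +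
      z * (2 * (s * (158 / 100000)) / (1 / 2 - z / 2) + 47 / 10000 * s * (1 / 2 - z / 2))
      ≤ 2 / 3 * (1 + 398 / 10000 * (24 * s ^ 2 / (1 + s ^ 2) ^ 2)) := by
  have hz1 : z ≤ 1002 / 1000 * t := by nlinarith
  have hz2 : z ≤ 502 / 100000 := by linarith
  have h1 : 2 * (s * (158 / 100000)) / (1 / 2 - z / 2) ≤ s * (636 / 100000) := by
    rw [div_le_iff₀ (by linarith)]
    nlinarith [mul_nonneg hs0 hz0]
  have h2 : 47 / 10000 * s * (1 / 2 - z / 2) ≤ s * (235 / 100000) := by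
    nlinarith [mul_nonneg hs0 hz0]
  have h3 : z * (2 * (s * (158 / 100000)) / (1 / 2 - z / 2) + 47 / 10000 * s * (1 / 2 - z / 2)) ≤
      (1002 / 1000 * t) * (s * (871 / 100000)) := by
    apply mul_le_mul hz1 (by linarith) _ (by positivity)
    have : 0 ≤ 1 / 2 - z / 2 := by linarith
    positivity
  have h4 : 2 / 3 * (1 + 398 / 10000 * (24 * s ^ 2 / (1 + s ^ 2) ^ 2)) ≥ 2 / 3 + 6367 / 10000 * s ^ 2 := by
    have h1s : 0 < (1 + s ^ 2) ^ 2 := by positivity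
    have h5 : 24 * s ^ 2 / (1 + s ^ 2) ^ 2 ≥ 24 * s ^ 2 * (1 - 1 / 10 ^ 5) := by
      rw [ge_iff_le, le_div_iff₀ h1s]
      have h6 : (1 - 1 / 10 ^ 5) * (1 + s ^ 2) ^ 2 ≤ 1 := by
        have h7 : s ^ 2 ≤ 11 / 10 ^ 7 := by nlinarith
        nlinarith [sq_nonneg s]
      have : 24 * s ^ 2 * ((1 - 1 / 10 ^ 5) * (1 + s ^ 2) ^ 2) ≤ 24 * s ^ 2 * 1 :=
        mul_le_mul_of_nonneg_left h6 (by positivity)
      linarith
    nlinarith [h5, sq_nonneg s]
  have h8 : t ^ 3 ≤ 5 / 1000 * t ^ 2 := by nlinarith [sq_nonneg t]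
  -- - (1/2 - 5/6000) t^2 + (.6974 + .00873) s t + (2/3 - .28141097) s^2 ≤ .6367 s^2
  nlinarith [h3, h4, h8, sq_nonneg (s * (70614 / 100000) - t * (2 * 4991 / 10000)), mul_nonneg hs0 ht, sq_nonneg s]

theorem norm_ (h1 : SmallStmt) (h2 : Lev1Stmt) (h3 : U0Stmt) (h4 : HalfDiscStmt) (h5 : SrcStmt) (h6 : BsmStmt)
    (hG : Geo1Stmt) (h8 : TopTbStmt) : NormStmt := by
  intro β v hN hv ζ hζ
  have hsA := h1 β hN
  have hL := h2 β v hN hv
  have hU := h3 β v hsA hv hL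
  set s := ‖β‖ with hs
  have hs0 : 0 ≤ s := norm_nonneg _
  have hsA' : s ≤ 1005 / 1000000 := hsA
  have hw0 : ∀ k, 0 ≤ X k (aff β ζ) := fun k => (hζ k).le
  have hwS : aff β ζ ∈ Sg := hw0
  have hA := (abs_le.mp (hL ζ hw0)).2
  rw [← hs] at hA
  have ht2 : ‖aff β ζ‖ ≤ 2 := hG.2.2.2.2.2.2.2.2.2.1 _ hwS
  have hF0 : ∀ w, F0 w = 2 / 3 - ‖w‖ ^ 2 / 2 + (w ^ 3).re / 6 := hG.2.2.2.2.2.2.2.1
  have hFle : F0 (aff β ζ) ≤ 2 / 3 - ‖aff β ζ‖ ^ 2 / 2 + ‖aff β ζ‖ ^ 3 / 6 := by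
    rw [hF0]
    have := Complex.re_le_norm ((aff β ζ) ^ 3)
    have h9 : ‖(aff β ζ) ^ 3‖ = ‖aff β ζ‖ ^ 3 := norm_pow _ _
    rw [h9] at this
    linarith
  have hfre : (β / (1 + s ^ 2 : ℝ) * f (aff β ζ)).re ≤ s * ‖f (aff β ζ)‖ := by
    have h10 := Complex.re_le_norm (β / (1 + s ^ 2 : ℝ) * f (aff β ζ))
    rw [norm_mul, norm_div, ← hs] at h10
    have h11 : ‖((1 + s ^ 2 : ℝ) : ℂ)‖ = 1 + s ^ 2 := by
      rw [Complex.norm_real, Real.norm_eq_abs, abs_of_nonneg (by positivity)]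
    rw [h11] at h10
    have h12 : s / (1 + s ^ 2) ≤ s := div_le_self hs0 (by nlinarith [sq_nonneg s])
    exact h10.trans (mul_le_mul_of_nonneg_right h12 (norm_nonneg _))
  have hppw : pp β (aff β ζ) = F0 (aff β ζ) + (β / (1 + s ^ 2 : ℝ) * f (aff β ζ)).re := rfl
  have hnn : (2 : ℝ) / 3 ≤ 2 / 3 * (1 + 398 / 10000 * (24 * s ^ 2 / (1 + s ^ 2) ^ 2)) := by
    have : 0 ≤ 24 * s ^ 2 / (1 + s ^ 2) ^ 2 := by positivity
    linarith
  set t := ‖aff β ζ‖ with ht
  have ht0 : 0 ≤ t := norm_nonneg _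
  rcases le_or_gt (4 / 10 : ℝ) t with hc | hc
  · -- case A
    have hB := h6.2.1 _ hwS
    have hf := h6.2.2.1 _ hwS
    have : s * Bm (aff β ζ) ≤ s * 1 := mul_le_mul_of_nonneg_left hB hs0
    have : s * ‖f (aff β ζ)‖ ≤ s * 11 := mul_le_mul_of_nonneg_left hf hs0
    have hcub : 416 / 1000 ≤ t ^ 2 * (3 - t) := by nlinarith [mul_nonneg (sub_nonneg.mpr hc) (sub_nonneg.mpr ht2)]
    nlinarith
  rcases le_or_gt (5 / 1000 : ℝ) t with hc2 | hc2
  · -- case B
    have hB := h6.1 (aff β ζ) (by rw [← ht]; linarith)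
    have hf := h6.2.2.2.2 (aff β ζ) (by rw [← ht]; linarith)
    rw [← ht] at hf
    have e1 : s * Bm (aff β ζ) ≤ s * (158 / 100000) := mul_le_mul_of_nonneg_left hB hs0
    have e2 : s * ‖f (aff β ζ)‖ ≤ s * (85 / 100 * t) := mul_le_mul_of_nonneg_left hf hs0
    have e3 : t ^ 3 ≤ 4 / 10 * t ^ 2 := by nlinarith [sq_nonneg t]
    have e4 : s * t ≤ 1005 / 1000000 * t := mul_le_mul_of_nonneg_right hsA' ht0
    have e5 : t * (5 / 1000) ≤ t ^ 2 := by nlinarith
    nlinarith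
  · -- case C
    have hB0 : ∀ z ∈ closedBall (0 : ℂ) (1 / 2), ‖aff β z‖ ≤ 5006 / 10000 := by
      intro z hz
      rw [mem_closedBall_zero_iff] at hz
      unfold aff
      calc ‖z + β * conj z‖ ≤ ‖z‖ + ‖β * conj z‖ := norm_add_le _ _
        _ = ‖z‖ + s * ‖z‖ := by rw [norm_mul, RCLike.norm_conj]
        _ ≤ 5006 / 10000 := by nlinarith [norm_nonneg z]
    have hBT : closedBall (0 : ℂ) (1 / 2) ⊆ Tb β := by
      intro z hz k
      have := nrm_X_ge hG k (aff β z)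
      have := hB0 z hz
      linarith
    have hopen := (h8 β hN.lt).1
    have hpa : ∀ {n : WithTop ℕ∞}, ContDiff ℝ n (fun z => pp β (aff β z)) := fun {n} =>
      (nrm_contDiff_pp β).comp (nrm_contDiff_aff β)
    have hq : ContDiffOn ℝ 2 (fun z => (1 + s ^ 2) * v z - pp β (aff β z)) (Tb β) :=
      (contDiffOn_const.mul hv.smooth).sub hpa.contDiffOn
    have hH := h4 (fun z => (1 + s ^ 2) * v z - pp β (aff β z)) (Tb β) (1 / 2) (s * (158 / 100000))
      (47 / 10000 * s) ζ hopen hq (by norm_num) hBT ?_ ?_ ?_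
    · have hqle : ((1 + s ^ 2) * v ζ - pp β (aff β ζ)) - ((1 + s ^ 2) * v 0 - pp β (aff β 0)) ≤
          ‖ζ‖ * (2 * (s * (158 / 100000)) / (1 / 2 - ‖ζ‖ / 2) + 47 / 10000 * s * (1 / 2 - ‖ζ‖ / 2)) :=
        (abs_le.mp hH).2
      have hpp0 : pp β (aff β 0) = 2 / 3 := by
        have : aff β 0 = 0 := by simp [aff]
        rw [this]
        unfold pp
        rw [nrm_f0, hF0]
        simp
      have hHH0 : HH β 0 = (1 + s ^ 2) * (2 / 3) + s ^ 2 * ((-28141097) / 10 ^ 8) := by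
        unfold HH
        rw [hF0, ← hs]
        simp [hh]
      have hf := h6.2.2.2.1 (aff β ζ) (by rw [← ht]; exact hc2.le)
      rw [← ht] at hf
      have e2 : s * ‖f (aff β ζ)‖ ≤ s * (6974 / 10000 * t) := mul_le_mul_of_nonneg_left hf hs0
      have hzt : ‖ζ‖ * (1 - s) ≤ t := by
        rw [ht]; unfold aff
        have h13 : ‖ζ‖ ≤ ‖ζ + β * conj ζ‖ + ‖β * conj ζ‖ := by
          have := norm_sub_le (ζ + β * conj ζ) (β * conj ζ)
          simpa using this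
        rw [norm_mul, RCLike.norm_conj] at h13
        nlinarith
      have hfin := nrm_final hs0 hsA' ht0 hc2 (norm_nonneg ζ) hzt
      rw [hHH0] at hU
      rw [hpp0] at hqle
      linarith
    · intro z hz
      have hz' := hBT hz
      have h14 := hL z (fun k => (hz' k).le)
      refine h14.trans ?_
      exact mul_le_mul_of_nonneg_left (h6.1 _ (hB0 z hz)) hs0
    · intro z hz
      have hz' := hBT hz
      have hzn : ‖z‖ ≤ 1 / 2 := mem_closedBall_zero_iff.mp hz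
      have h15 := h5 β z hsA hzn
      rw [← hs] at h15
      have hvz : ContDiffAt ℝ 2 v z := (hv.smooth z hz').contDiffAt (hopen.mem_nhds hz')
      have hlap := nrm_lap (1 + s ^ 2) v (fun z => pp β (aff β z)) z hvz hpa.contDiffAt
      rw [hlap]
      have h16 := hv.pde z hz'
      have h17 : (1 / 2 : ℝ) * ((1 + s ^ 2) * (Δ v) z - (Δ fun z => pp β (aff β z)) z)
          = -((1 + s ^ 2) + (1 / 2 : ℝ) * (Δ fun z => pp β (aff β z)) z) := by
        linear_combination (1 + s ^ 2) * h16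
      rw [h17, abs_neg]
      exact h15
    · have h13 : ‖ζ‖ ≤ ‖ζ + β * conj ζ‖ + ‖β * conj ζ‖ := by
        have := norm_sub_le (ζ + β * conj ζ) (β * conj ζ)
        simpa using this
      rw [norm_mul, RCLike.norm_conj] at h13
      have h18 : ‖ζ + β * conj ζ‖ = t := rfl
      rw [h18, ← hs] at h13
      nlinarith [norm_nonneg ζ]

end Pool.TRI.A
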