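import Pool.Agent.H69.TRI.StmtsP

open MeasureTheory Set Filter Topology InnerProductSpace Metric
open scoped Real ComplexConjugate ContDiff Laplacian

namespace Pool.TRI.A

/-- first order approximation of a product of `n` factors -/
private def T2G (r s : ℝ) (n : ℕ) (P p h : ℂ) : Prop :=
  ‖P - p - h‖ ≤ r ^ n * ((1 + s) ^ n - 1 - n * s) ∧ ‖h‖ ≤ n * s * r ^ n ∧ ‖p‖ ≤ r ^ n

private theorem t2_one (r s : ℝ) : T2G r s 0 1 1 0 := by
  unfold T2G; simp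

private theorem t2_step {r s : ℝ} (hr : 0 ≤ r) (hs : 0 ≤ s) {n : ℕ} {P p h z k : ℂ} (H : T2G r s n P p h)
    (hz : ‖z‖ ≤ r) (hk : ‖k‖ ≤ s * r) : T2G r s (n + 1) (P * (z + k)) (p * z) (h * z + p * k) := by
  obtain ⟨h1, h2, h3⟩ := H
  have hrn : 0 ≤ r ^ n := by positivity
  refine ⟨?_, ?_, ?_⟩
  · have e : P * (z + k) - p * z - (h * z + p * k) = (P - p - h) * (z + k) + h * k := by ring
    rw [e]
    have hzk : ‖z + k‖ ≤ r * (1 + s) := by
      calc ‖z + k‖ ≤ ‖z‖ + ‖k‖ := norm_add_le _ _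
        _ ≤ r * (1 + s) := by linarith
    have h0 : 0 ≤ r ^ n * ((1 + s) ^ n - 1 - n * s) := (norm_nonneg _).trans h1
    calc ‖(P - p - h) * (z + k) + h * k‖ ≤ ‖P - p - h‖ * ‖z + k‖ + ‖h‖ * ‖k‖ := by
          refine (norm_add_le _ _).trans ?_
          rw [norm_mul, norm_mul]
      _ ≤ (r ^ n * ((1 + s) ^ n - 1 - n * s)) * (r * (1 + s)) + (n * s * r ^ n) * (s * r) := by
          have := mul_le_mul h1 hzk (norm_nonneg _) h0
          have := mul_le_mul h2 hk (norm_nonneg _) (by positivity)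
          linarith
      _ = r ^ (n + 1) * ((1 + s) ^ (n + 1) - 1 - ((n + 1 : ℕ) : ℝ) * s) := by push_cast; ring
  · calc ‖h * z + p * k‖ ≤ ‖h‖ * ‖z‖ + ‖p‖ * ‖k‖ := by
          refine (norm_add_le _ _).trans ?_
          rw [norm_mul, norm_mul]
      _ ≤ (n * s * r ^ n) * r + r ^ n * (s * r) := by
          have := mul_le_mul h2 hz (norm_nonneg _) (by positivity)
          have := mul_le_mul h3 hk (norm_nonneg _) hrn
          linarith
      _ = ((n + 1 : ℕ) : ℝ) * s * r ^ (n + 1) := by push_cast; ring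
  · rw [norm_mul, pow_succ]
    exact mul_le_mul h3 hz (norm_nonneg _) hrn

private noncomputable def t2u (ζ : ℂ) (a b : ℕ) : ℂ := a * ζ ^ (a - 1) * conj ζ ^ (b + 1)
private noncomputable def t2v (ζ : ℂ) (a b : ℕ) : ℂ := b * ζ ^ (a + 1) * conj ζ ^ (b - 1)

private theorem t2_mono (γ ζ : ℂ) (a b : ℕ) :
    T2G ‖ζ‖ ‖γ‖ (a + b) (aff γ ζ ^ a * conj (aff γ ζ) ^ b) (ζ ^ a * conj ζ ^ b)
      (γ * t2u ζ a b + conj γ * t2v ζ a b) := by
  have hA : aff γ ζ = ζ + γ * conj ζ := rfl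
  have hA' : conj (aff γ ζ) = conj ζ + conj γ * ζ := by rw [hA]; simp
  have hr := norm_nonneg ζ
  have hs := norm_nonneg γ
  have hz' : ‖conj ζ‖ ≤ ‖ζ‖ := by rw [RCLike.norm_conj]
  have hk1 : ‖γ * conj ζ‖ ≤ ‖γ‖ * ‖ζ‖ := by rw [norm_mul, RCLike.norm_conj]
  have hk2 : ‖conj γ * ζ‖ ≤ ‖γ‖ * ‖ζ‖ := by rw [norm_mul, RCLike.norm_conj]
  induction b with
  | zero =>
    induction a with
    | zero =>
      have := t2_one ‖ζ‖ ‖γ‖
      simpa [t2u, t2v] using this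
    | succ a ih =>
      have h := t2_step hr hs ih le_rfl hk1
      rw [hA'] at h ⊢
      rw [hA] at h ⊢
      have e1 : (ζ + γ * conj ζ) ^ a * (conj ζ + conj γ * ζ) ^ 0 * (ζ + γ * conj ζ)
          = (ζ + γ * conj ζ) ^ (a + 1) * (conj ζ + conj γ * ζ) ^ 0 := by ring
      have e2 : ζ ^ a * conj ζ ^ 0 * ζ = ζ ^ (a + 1) * conj ζ ^ 0 := by ring
      have e3 : (γ * t2u ζ a 0 + conj γ * t2v ζ a 0) * ζ + ζ ^ a * conj ζ ^ 0 * (γ * conj ζ)
          = γ * t2u ζ (a + 1) 0 + conj γ * t2v ζ (a + 1) 0 := by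
        unfold t2u t2v
        rcases a with _ | a
        · simp
        · simp only [Nat.add_sub_cancel]; push_cast; ring
      rw [e1, e2, e3] at h
      exact h
  | succ b ih =>
    have h := t2_step hr hs ih hz' hk2
    rw [hA'] at h ⊢
    have e1 : aff γ ζ ^ a * (conj ζ + conj γ * ζ) ^ b * (conj ζ + conj γ * ζ)
        = aff γ ζ ^ a * (conj ζ + conj γ * ζ) ^ (b + 1) := by ring
    have e2 : ζ ^ a * conj ζ ^ b * conj ζ = ζ ^ a * conj ζ ^ (b + 1) := by ring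
    have e3 : (γ * t2u ζ a b + conj γ * t2v ζ a b) * conj ζ + ζ ^ a * conj ζ ^ b * (conj γ * ζ)
        = γ * t2u ζ a (b + 1) + conj γ * t2v ζ a (b + 1) := by
      unfold t2u t2v
      rcases b with _ | b
      · simp; ring
      · simp only [Nat.add_sub_cancel]; push_cast; ring
    rw [e1, e2, e3] at h
    exact h

private theorem t2_num {s : ℝ} (hs : 0 ≤ s) (hsA : s ≤ 1005 / 1000000) (n : ℕ) (hn : n ≤ 12) :
    (1 + s) ^ n - 1 - n * s ≤ 10102 / 10000 * (n.choose 2 : ℝ) * s ^ 2 := by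
  have key : ∀ (k : ℕ) (K L : ℝ), (1 + s) ^ k - 1 - k * s ≤ K * s ^ 2 → 1001005 / 1000000 * K + k ≤ L → 0 ≤ K →
      (1 + s) ^ (k + 1) - 1 - (k + 1 : ℕ) * s ≤ L * s ^ 2 := by
    intro k K L h hL hK
    have e : (1 + s) ^ (k + 1) - 1 - (k + 1 : ℕ) * s = ((1 + s) ^ k - 1 - k * s) * (1 + s) + k * s ^ 2 := by
      push_cast; ring
    rw [e]
    have h1 : ((1 + s) ^ k - 1 - k * s) * (1 + s) ≤ K * s ^ 2 * (1 + s) :=
      mul_le_mul_of_nonneg_right h (by linarith)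
    have h2 : K * s ^ 2 * (1 + s) ≤ K * s ^ 2 * (1001005 / 1000000) :=
      mul_le_mul_of_nonneg_left (by linarith) (by positivity)
    have h3 : (1001005 / 1000000 * K + k) * s ^ 2 ≤ L * s ^ 2 := mul_le_mul_of_nonneg_right hL (by positivity)
    nlinarith
  have h0 : (1 + s) ^ 0 - 1 - ((0 : ℕ) : ℝ) * s ≤ 0 * s ^ 2 := by simp
  have h1 := key 0 0 0 h0 (by norm_num) le_rfl
  have h2 := key 1 0 1 h1 (by norm_num) le_rfl
  have h3 := key 2 1 (3002 / 1000) h2 (by norm_num) (by norm_num)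
  have h4 := key 3 (3002 / 1000) (6006 / 1000) h3 (by norm_num) (by norm_num)
  have h5 := key 4 (6006 / 1000) (10014 / 1000) h4 (by norm_num) (by norm_num)
  have h6 := key 5 (10014 / 1000) (15026 / 1000) h5 (by norm_num) (by norm_num)
  have h7 := key 6 (15026 / 1000) (21043 / 1000) h6 (by norm_num) (by norm_num)
  have h8 := key 7 (21043 / 1000) (28066 / 1000) h7 (by norm_num) (by norm_num)
  have h9 := key 8 (28066 / 1000) (36096 / 1000) h8 (by norm_num) (by norm_num)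
  have h10 := key 9 (36096 / 1000) (45134 / 1000) h9 (by norm_num) (by norm_num)
  have h11 := key 10 (45134 / 1000) (55182 / 1000) h10 (by norm_num) (by norm_num)
  have h12 := key 11 (55182 / 1000) (66241 / 1000) h11 (by norm_num) (by norm_num)
  have fn : ∀ (k : ℕ) (K : ℝ), (1 + s) ^ k - 1 - (k : ℝ) * s ≤ K * s ^ 2 → K ≤ 10102 / 10000 * (k.choose 2 : ℝ) →
      (1 + s) ^ k - 1 - (k : ℝ) * s ≤ 10102 / 10000 * (k.choose 2 : ℝ) * s ^ 2 := by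
    intro k K h hK
    exact h.trans (mul_le_mul_of_nonneg_right hK (by positivity))
  have c : ∀ k m : ℕ, k.choose 2 = m → (k.choose 2 : ℝ) = m := fun k m h => by rw [h]
  interval_cases n
  · exact fn 0 _ h0 (by norm_num)
  · exact fn 1 _ h1 (by norm_num)
  · exact fn 2 _ h2 (by rw [c 2 1 (by decide)]; norm_num)
  · exact fn 3 _ h3 (by rw [c 3 3 (by decide)]; norm_num)
  · exact fn 4 _ h4 (by rw [c 4 6 (by decide)]; norm_num)
  · exact fn 5 _ h5 (by rw [c 5 10 (by decide)]; norm_num)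
  · exact fn 6 _ h6 (by rw [c 6 15 (by decide)]; norm_num)
  · exact fn 7 _ h7 (by rw [c 7 21 (by decide)]; norm_num)
  · exact fn 8 _ h8 (by rw [c 8 28 (by decide)]; norm_num)
  · exact fn 9 _ h9 (by rw [c 9 36 (by decide)]; norm_num)
  · exact fn 10 _ h10 (by rw [c 10 45 (by decide)]; norm_num)
  · exact fn 11 _ h11 (by rw [c 11 55 (by decide)]; norm_num)
  · exact fn 12 _ h12 (by rw [c 12 66 (by decide)]; norm_num)

private theorem t2_avg (h1 : Geo1Stmt) (β ζ : ℂ) (hβ : ‖β‖ ≤ 1005 / 1000000) (a b : ℕ) (hab : a + b ≤ 12) :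
    ‖(β * (aff β ζ ^ a * conj (aff β ζ) ^ b) + om * β * (aff (om * β) ζ ^ a * conj (aff (om * β) ζ) ^ b)
      + om ^ 2 * β * (aff (om ^ 2 * β) ζ ^ a * conj (aff (om ^ 2 * β) ζ) ^ b)) / 3 - ‖β‖ ^ 2 * t2v ζ a b‖
      ≤ 10102 / 10000 * ‖β‖ ^ 3 * (((a + b).choose 2 : ℝ) * ‖ζ‖ ^ (a + b)) := by
  obtain ⟨o3, o1, oc, on, -⟩ := h1
  have e1 : ‖om * β‖ = ‖β‖ := by rw [norm_mul, on, one_mul]
  have e2 : ‖om ^ 2 * β‖ = ‖β‖ := by rw [norm_mul, norm_pow, on, one_pow, one_mul]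
  have g0 := (t2_mono β ζ a b).1
  have g1 := (t2_mono (om * β) ζ a b).1
  have g2 := (t2_mono (om ^ 2 * β) ζ a b).1
  rw [e1] at g1
  rw [e2] at g2
  set P0 := aff β ζ ^ a * conj (aff β ζ) ^ b
  set P1 := aff (om * β) ζ ^ a * conj (aff (om * β) ζ) ^ b
  set P2 := aff (om ^ 2 * β) ζ ^ a * conj (aff (om ^ 2 * β) ζ) ^ b
  set p := ζ ^ a * conj ζ ^ b
  set u := t2u ζ a b
  set v := t2v ζ a b
  set R := ‖ζ‖ ^ (a + b) * ((1 + ‖β‖) ^ (a + b) - 1 - ((a + b : ℕ) : ℝ) * ‖β‖) with hR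
  have hbb : β * conj β = (‖β‖ : ℂ) ^ 2 := by
    rw [Complex.mul_conj, Complex.normSq_eq_norm_sq]; push_cast; rfl
  have hc1 : conj (om * β) = om ^ 2 * conj β := by rw [map_mul, oc]
  have hc2 : conj (om ^ 2 * β) = om * conj β := by
    rw [map_mul, map_pow, oc]
    have : (om ^ 2) ^ 2 = om := by
      calc (om ^ 2) ^ 2 = om ^ 3 * om := by ring
        _ = om := by rw [o3, one_mul]
    rw [this]
  have key : (β * P0 + om * β * P1 + om ^ 2 * β * P2) / 3 - (‖β‖ : ℂ) ^ 2 * v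
      = (β * (P0 - p - (β * u + conj β * v)) + om * β * (P1 - p - (om * β * u + conj (om * β) * v))
        + om ^ 2 * β * (P2 - p - (om ^ 2 * β * u + conj (om ^ 2 * β) * v))) / 3 := by
    rw [hc1, hc2, ← hbb]
    have o4 : om ^ 4 = om := by
      calc om ^ 4 = om ^ 3 * om := by ring
        _ = om := by rw [o3, one_mul]
    linear_combination ((β * p) / 3 + β ^ 2 * u / 3) * o1 + (2 * β * conj β * v / 3) * o3 + (β ^ 2 * u / 3) * o4
  rw [key]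
  have hs := norm_nonneg β
  have n0 : ‖β * (P0 - p - (β * u + conj β * v))‖ ≤ ‖β‖ * R := by
    rw [norm_mul]; exact mul_le_mul_of_nonneg_left g0 hs
  have n1 : ‖om * β * (P1 - p - (om * β * u + conj (om * β) * v))‖ ≤ ‖β‖ * R := by
    rw [norm_mul, e1]; exact mul_le_mul_of_nonneg_left g1 hs
  have n2 : ‖om ^ 2 * β * (P2 - p - (om ^ 2 * β * u + conj (om ^ 2 * β) * v))‖ ≤ ‖β‖ * R := by
    rw [norm_mul, e2]; exact mul_le_mul_of_nonneg_left g2 hs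
  have hRle : R ≤ ‖ζ‖ ^ (a + b) * (10102 / 10000 * ((a + b).choose 2 : ℝ) * ‖β‖ ^ 2) :=
    mul_le_mul_of_nonneg_left (t2_num hs hβ (a + b) hab) (by positivity)
  have hdiv : ∀ z : ℂ, ‖z / 3‖ = ‖z‖ / 3 := by intro z; rw [norm_div]; norm_num
  rw [hdiv]
  have htri := (norm_add_le (β * (P0 - p - (β * u + conj β * v)) + om * β * (P1 - p - (om * β * u + conj (om * β) * v)))
    (om ^ 2 * β * (P2 - p - (om ^ 2 * β * u + conj (om ^ 2 * β) * v))))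
  have htri2 := norm_add_le (β * (P0 - p - (β * u + conj β * v))) (om * β * (P1 - p - (om * β * u + conj (om * β) * v)))
  have hfin : ‖β‖ * R ≤ 10102 / 10000 * ‖β‖ ^ 3 * (((a + b).choose 2 : ℝ) * ‖ζ‖ ^ (a + b)) := by
    calc ‖β‖ * R ≤ ‖β‖ * (‖ζ‖ ^ (a + b) * (10102 / 10000 * ((a + b).choose 2 : ℝ) * ‖β‖ ^ 2)) :=
          mul_le_mul_of_nonneg_left hRle hs
      _ = _ := by ring
  linarith

private theorem t2_list (h1 : Geo1Stmt) (β ζ : ℂ) (hβ : ‖β‖ ≤ 1005 / 1000000) (l : List (ℤ × ℕ × ℕ))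
    (hl : ∀ t ∈ l, t.2.1 + t.2.2 ≤ 12) :
    ‖(β * ev l (aff β ζ) + om * β * ev l (aff (om * β) ζ) + om ^ 2 * β * ev l (aff (om ^ 2 * β) ζ)) / 3
      - ‖β‖ ^ 2 * (l.map fun t => (t.1 : ℂ) * t2v ζ t.2.1 t.2.2).sum‖ ≤
      10102 / 10000 * ‖β‖ ^ 3 *
        (l.map fun t => |(t.1 : ℝ)| * ((t.2.1 + t.2.2).choose 2 : ℝ) * ‖ζ‖ ^ (t.2.1 + t.2.2)).sum := by
  induction l with
  | nil => simp [ev]
  | cons t l ih =>
    have ih' := ih fun x hx => hl x (by simp [hx])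
    have ht := t2_avg h1 β ζ hβ t.2.1 t.2.2 (hl t (by simp))
    have hev : ∀ w, ev (t :: l) w = (t.1 : ℂ) * (w ^ t.2.1 * conj w ^ t.2.2) + ev l w := by
      intro w; simp [ev, mul_assoc]
    rw [hev, hev, hev, List.map_cons, List.sum_cons, List.map_cons, List.sum_cons]
    set Q := (β * (aff β ζ ^ t.2.1 * conj (aff β ζ) ^ t.2.2)
      + om * β * (aff (om * β) ζ ^ t.2.1 * conj (aff (om * β) ζ) ^ t.2.2)
      + om ^ 2 * β * (aff (om ^ 2 * β) ζ ^ t.2.1 * conj (aff (om ^ 2 * β) ζ) ^ t.2.2)) / 3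
      - (‖β‖ : ℂ) ^ 2 * t2v ζ t.2.1 t.2.2 with hQ
    set L := (β * ev l (aff β ζ) + om * β * ev l (aff (om * β) ζ) + om ^ 2 * β * ev l (aff (om ^ 2 * β) ζ)) / 3
      - (‖β‖ : ℂ) ^ 2 * (l.map fun t => (t.1 : ℂ) * t2v ζ t.2.1 t.2.2).sum with hL
    have e : (β * ((t.1 : ℂ) * (aff β ζ ^ t.2.1 * conj (aff β ζ) ^ t.2.2) + ev l (aff β ζ))
        + om * β * ((t.1 : ℂ) * (aff (om * β) ζ ^ t.2.1 * conj (aff (om * β) ζ) ^ t.2.2) + ev l (aff (om * β) ζ))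
        + om ^ 2 * β * ((t.1 : ℂ) * (aff (om ^ 2 * β) ζ ^ t.2.1 * conj (aff (om ^ 2 * β) ζ) ^ t.2.2)
          + ev l (aff (om ^ 2 * β) ζ))) / 3
        - (‖β‖ : ℂ) ^ 2 * ((t.1 : ℂ) * t2v ζ t.2.1 t.2.2 + (l.map fun t => (t.1 : ℂ) * t2v ζ t.2.1 t.2.2).sum)
        = (t.1 : ℂ) * Q + L := by
      rw [hQ, hL]; ring
    rw [e]
    have hn : ‖(t.1 : ℂ)‖ = |(t.1 : ℝ)| := by
      rw [← Complex.ofReal_intCast, Complex.norm_real, Real.norm_eq_abs]
    have hc := mul_le_mul_of_nonneg_left ht (abs_nonneg (t.1 : ℝ))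
    calc ‖(t.1 : ℂ) * Q + L‖ ≤ |(t.1 : ℝ)| * ‖Q‖ + ‖L‖ := by
          refine (norm_add_le _ _).trans ?_
          rw [norm_mul, hn]
      _ ≤ _ := by
          rw [mul_add]
          have : |(t.1 : ℝ)| * (10102 / 10000 * ‖β‖ ^ 3 * (((t.2.1 + t.2.2).choose 2 : ℝ) * ‖ζ‖ ^ (t.2.1 + t.2.2)))
            = 10102 / 10000 * ‖β‖ ^ 3 * (|(t.1 : ℝ)| * ((t.2.1 + t.2.2).choose 2 : ℝ) * ‖ζ‖ ^ (t.2.1 + t.2.2)) := by
            ring
          linarith

theorem t2 (h1 : Geo1Stmt) (h2 : Geo2Stmt) : T2Stmt := by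
  intro β ζ hβ
  have hf := h2.2.2.1
  have hl : ∀ t ∈ fl, t.2.1 + t.2.2 ≤ 12 := by decide
  have h := t2_list h1 β ζ hβ fl hl
  have hfw : ζ * fwb ζ = (fl.map fun t => (t.1 : ℂ) * t2v ζ t.2.1 t.2.2).sum / (8 * 10 ^ 8) := by
    unfold fwb
    rw [← mul_div_assoc, ← List.sum_map_mul_left]
    congr 2
    apply List.map_congr_left
    intro t _
    unfold t2v
    ring
  have e : (β * f (aff β ζ) + om * β * f (aff (om * β) ζ) + om ^ 2 * β * f (aff (om ^ 2 * β) ζ)) / 3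
      - (‖β‖ : ℂ) ^ 2 * (ζ * fwb ζ) =
      ((β * ev fl (aff β ζ) + om * β * ev fl (aff (om * β) ζ) + om ^ 2 * β * ev fl (aff (om ^ 2 * β) ζ)) / 3
      - ‖β‖ ^ 2 * (fl.map fun t => (t.1 : ℂ) * t2v ζ t.2.1 t.2.2).sum) / (8 * 10 ^ 8) := by
    rw [hf, hf, hf, hfw]; ring
  have hre : ((β * f (aff β ζ)).re + (om * β * f (aff (om * β) ζ)).re + (om ^ 2 * β * f (aff (om ^ 2 * β) ζ)).re) / 3
      - ‖β‖ ^ 2 * (ζ * fwb ζ).re =
      ((β * f (aff β ζ) + om * β * f (aff (om * β) ζ) + om ^ 2 * β * f (aff (om ^ 2 * β) ζ)) / 3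
      - (‖β‖ : ℂ) ^ 2 * (ζ * fwb ζ)).re := by
    rw [Complex.sub_re, ← Complex.ofReal_pow, Complex.re_ofReal_mul]
    have : ∀ z : ℂ, (z / 3).re = z.re / 3 := by
      intro z
      have := Complex.div_ofReal_re z 3
      simpa using this
    rw [this, Complex.add_re, Complex.add_re]
  rw [hre, e]
  refine (Complex.abs_re_le_norm _).trans ?_
  rw [norm_div]
  have h8 : ‖(8 * 10 ^ 8 : ℂ)‖ = 8 * 10 ^ 8 := by norm_num
  rw [h8]
  unfold D2
  rw [← mul_div_assoc]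
  exact div_le_div_of_nonneg_right h (by norm_num)

end Pool.TRI.A
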