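import Pool.Agent.H34.TRI.BARYTB
import Pool.Agent.H34.TRI.BSM
import Pool.Agent.H29.TRI.CERT
import Pool.Agent.H29.TRI.CERTB
import Pool.Agent.H58.TRI.CHV
import Pool.Agent.H34.TRI.DIR
import Pool.Agent.H85.TRI.EQL
import Pool.Agent.H12.TRI.EQM
import Pool.Agent.H69.TRI.EQUI
import Pool.Agent.H92.TRI.FRAME
import Pool.Agent.H85.TRI.GEO1
import Pool.Agent.H85.TRI.GEO2
import Pool.Agent.H69.TRI.GRAD
import Pool.Agent.H5.TRI.HALFDISC
import Pool.Agent.H12.TRI.IBP
import Pool.Agent.H19.TRI.J
import Pool.Agent.H69.TRI.J0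
import Pool.Agent.H92.TRI.JAC
import Pool.Agent.H69.TRI.LAPB
import Pool.Agent.H5.TRI.LAPD
import Pool.Agent.H5.TRI.LAPSIM
import Pool.Agent.H5.TRI.LAPW
import Pool.Agent.H92.TRI.LEV1
import Pool.Agent.H85.TRI.LX
import Pool.Agent.H5.TRI.MAXP
import Pool.Agent.H29.TRI.N4
import Pool.Agent.H7.TRI.NB
import Pool.Agent.H69.TRI.NEAR
import Pool.Agent.H19.TRI.NEARL
import Pool.Agent.H69.TRI.NEARM
import Pool.Agent.H69.TRI.NORM
import Pool.Agent.H19.TRI.NUML
import Pool.Agent.H12.TRI.PERM
import Pool.Agent.H19.TRI.PHI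
import Pool.Agent.H95.TRI.PSI1
import Pool.Agent.H34.TRI.PSI2
import Pool.Agent.H95.TRI.PSI3
import Pool.Agent.H92.TRI.QF
import Pool.Agent.H5.TRI.RAY
import Pool.Agent.H58.TRI.RAYK
import Pool.Agent.H34.TRI.SMALL
import Pool.Agent.H95.TRI.SRC
import Pool.Agent.H59.TRI.T1
import Pool.Agent.H69.TRI.T2
import Pool.Agent.H95.TRI.T3
import Pool.Agent.H34.TRI.TOPTB
import Pool.Agent.H85.TRI.U0

namespace Pool.TRI.A

theorem all_geo1 : Geo1Stmt := geo1
theorem all_barytb : BaryTbStmt := barytb all_geo1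
theorem all_geo2 : Geo2Stmt := geo2 all_geo1
theorem all_bsm : BsmStmt := bsm all_geo1 all_geo2
theorem all_cert : CertStmt := cert
theorem all_certb : CertBStmt := certB
theorem all_chv : ChvStmt := chv
theorem all_dir : DirStmt := dir
theorem all_lapb : LapBStmt := lapb
theorem all_ray : RayStmt := ray
theorem all_grad : GradStmt := grad
theorem all_rayk : RayKStmt := rayk all_ray all_chv all_grad
theorem all_perm : PermStmt := perm all_barytb all_chv
theorem all_phi : PhiStmt := phi all_perm
theorem all_jac : JacStmt := jac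
theorem all_eql : EqLStmt := eql all_lapb all_rayk all_phi all_jac
theorem all_maxp : MaxPStmt := maxp
theorem all_eqm : EqMStmt := eqm all_maxp all_lapb
theorem all_equi : Pool.TRI.EquiStmt := equi all_eqm all_eql
theorem all_lapsim : LapSimStmt := lapsim
theorem all_toptb : TopTbStmt := toptb all_geo1
theorem all_frame : FrameStmt := frame all_geo1 all_lapsim all_toptb
theorem all_lapd : LapDStmt := lapd
theorem all_halfdisc : HalfDiscStmt := halfdisc all_maxp all_lapsim all_lapd
theorem all_ibp : IbpStmt := ibp all_perm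
theorem all_t1 : T1Stmt := t1 all_geo1
theorem all_t2 : T2Stmt := t2 all_geo1 all_geo2
theorem all_lx : LXStmt := lx all_geo1
theorem all_nb : NBStmt := nb all_geo1 all_lx all_certb
theorem all_t3 : T3Stmt := t3 all_geo1 all_nb
theorem all_n4 : N4Stmt := n4 all_geo1
theorem all_j0 : J0Stmt := j0 all_geo1 all_t1 all_t2 all_t3 all_n4
theorem all_j : JStmt := j all_geo1 all_geo2 all_j0
theorem all_lapw : LapWStmt := lapw all_lapd
theorem all_lev1 : Lev1Stmt := lev1 all_maxp all_toptb all_barytb all_lapb all_lx all_cert all_certb all_geo1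
theorem all_small : SmallStmt := small all_geo1
theorem all_u0 : U0Stmt := u0 all_maxp all_lapsim all_lapw all_toptb all_geo1 all_geo2 all_j
theorem all_src : SrcStmt := src all_geo1 all_geo2 all_lapw
theorem all_norm : NormStmt := norm_ all_small all_lev1 all_u0 all_halfdisc all_src all_bsm all_geo1 all_toptb
theorem all_nearm : NearMStmt := nearm all_frame all_norm all_geo1
theorem all_psi1 : Psi1Stmt := psi1
theorem all_psi3 : Psi3Stmt := psi3
theorem all_psi2 : Psi2Stmt := psi2 all_dir
theorem all_qf : QFStmt := qf all_perm all_psi1 all_psi2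
theorem all_numl : NumLStmt := numl
theorem all_nearl : NearLStmt := nearl all_rayk all_ibp all_phi all_psi1 all_psi3 all_qf all_numl
theorem all_near : NearOrdStmt := near all_nearm all_nearl
theorem all_nearStmt : Pool.TRI.NearStmt := all_near

end Pool.TRI.A
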