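import Pool.Agent.H89.TRI.Lib

open MeasureTheory Set Filter Topology MvPolynomial
open scoped Real ContDiff Laplacian

namespace Pool.TRI.K

theorem boxc (h1 : SHPStmt) (h2 : MAXCStmt) (h3 : CORStmt) : BOXCStmt := by
  intro b M Km wm fm hb
  have hM := ((h1.2.1 ℤ 3 3 (fun _ => true) M).1 hb.m).1
  have hsh := hb.s
  have hD : 0 < b.D := ((h1.2.2.2.1 b).1 hsh).2.2.2.1
  refine h3 b M b.D 2 2 hsh hb.c2 hb.cb hD hM ?_ ?_
  · intro s s' t t' hs hs' ht ht' hss htt x hx hx1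
    have := h2 b M Km wm fm hsh hb.m hb.cm s s' t t' hs hs' ht ht' hss htt x hx hx1
    have hD' : (0 : ℝ) ≤ b.D := by exact_mod_cast hD.le
    exact mul_le_mul_of_nonneg_left this hD'
  · have := hb.cf
    have e : 2 + (Bool.rec (motive := fun _ => ℕ) 1 2 b.typ : ℕ) = Bool.rec (motive := fun _ => ℕ) 3 4 b.typ := by
      cases b.typ <;> rfl
    rw [e]; exact this

end Pool.TRI.K
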