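import Pool.Agent.H89.TRI.Lib

open MeasureTheory Set Filter Topology MvPolynomial
open scoped Real ContDiff Laplacian

namespace Pool.TRI.K

theorem boxq (h1 : SHPStmt) (h2 : MAXQStmt) (h3 : CORStmt) : BOXQStmt := by
  intro b Q hb
  have hsh := hb.s
  have hD : 0 < b.D := ((h1.2.2.2.1 b).1 hsh).2.2.2.1
  have hdel : 0 < del4 Q := ((h1.2.2.2.2 Q).1 hb.m).2.2.2.2.2.2.2.2
  obtain ⟨hR, hv⟩ := h2 b Q hsh hb.m hb.cq
  refine h3 b (MnQ Q) (del4 Q * b.D) 4 4 hsh hb.c2 hb.cb (mul_pos hdel hD) hR ?_ ?_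
  · intro s s' t t' hs hs' ht ht' hss htt x hx hx1
    have := hv s s' t t' hs hs' ht ht' hss htt x hx hx1
    have hD' : (0 : ℝ) ≤ b.D := by exact_mod_cast hD.le
    have h4 := mul_le_mul_of_nonneg_left this hD'
    push_cast
    linarith
  · have := hb.cf
    have e : 4 + (Bool.rec (motive := fun _ => ℕ) 1 2 b.typ : ℕ) = Bool.rec (motive := fun _ => ℕ) 5 6 b.typ := by
      cases b.typ <;> rfl
    rw [e]; exact this

end Pool.TRI.K
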