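import Pool.Agent.H89.TRI.Lib

open MeasureTheory Set Filter Topology MvPolynomial
open scoped Real ContDiff Laplacian

namespace Pool.TRI.K

private theorem cor_lin_hom (m : ℕ) {α : Type} (f : α → MP) (l : List α) (y z : ℝ)
    (h : ∀ a ∈ l, (f a).IsHomogeneous m) : (lin (A := ℝ) f l y z).IsHomogeneous m := by
  induction l with
  | nil => exact MvPolynomial.isHomogeneous_zero _ _ _
  | cons a l ih =>
    rw [lin_cons]
    have h1 : ∀ (c : ℝ) (F : MP), F.IsHomogeneous m → (c • F).IsHomogeneous m := by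
      intro c F hF
      exact (MvPolynomial.homogeneousSubmodule (Fin 3) ℝ m).smul_mem c hF
    exact (h1 _ _ (h a (by simp))).add (h1 _ _ (ih fun b hb => h b (by simp [hb])))

private theorem cor_pi : (98696044 : ℝ) / 10 ^ 7 < π ^ 2 := by
  have h := Real.pi_gt_d20
  have h2 : (3.14159265358979323846 : ℝ) ^ 2 < π ^ 2 := by
    apply pow_lt_pow_left₀ h (by norm_num) (by norm_num)
  refine lt_trans ?_ h2
  norm_num

private theorem cor_par (q U0 U1 : ℤ) (u : ℝ) (hq : (0 : ℝ) < q) (hU : U0 < U1) (h0 : (U0 : ℝ) ≤ q * u)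
    (h1 : (q : ℝ) * u ≤ U1) : ∃ s s' : ℝ, 0 ≤ s ∧ 0 ≤ s' ∧ s + s' = 1 ∧ ((U0 : ℝ) * s' + U1 * s) / q = u := by
  have hd : (0 : ℝ) < (U1 : ℝ) - U0 := by
    have : (U0 : ℝ) < U1 := by exact_mod_cast hU
    linarith
  refine ⟨(q * u - U0) / (U1 - U0), (U1 - q * u) / (U1 - U0), div_nonneg (by linarith) hd.le,
    div_nonneg (by linarith) hd.le, ?_, ?_⟩
  · field_simp; ring
  · field_simp; ring

theorem cor (h1 : SUPStmt) (h2 : ENMAStmt) (h3 : FINStmt) (h4 : SHPStmt) (h5 : CHARTStmt) (h6 : EVNStmt)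
    (h7 : BASStmt) (h8 : CMPStmt) (h9 : RAYFStmt) (h10 : FPOSStmt) : CORStmt := by
  intro b Mn Md a' b' hsh hc2 hcB hMd hMn hmaj hfin
  intro T B w hw σ u v hσ hU0 hU1 hV0 hV1 hc
  obtain ⟨hP, hpsi, hq, hD, hUU, hVV⟩ := (h4.2.2.2.1 b).1 hsh
  have hq' : (0 : ℝ) < b.q := by exact_mod_cast hq
  have hD' : (0 : ℝ) < b.D := by exact_mod_cast hD
  have hMd' : (0 : ℝ) < Md := by exact_mod_cast hMd
  obtain ⟨s, s', hs, hs', hss, hu⟩ := cor_par b.q b.U0 b.U1 u hq' hUU hU0 hU1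
  obtain ⟨t, t', ht, ht', htt, hv⟩ := cor_par b.q b.V0 b.V1 v hq' hVV hV0 hV1
  obtain ⟨hTo, hTb, hTn, _, hsum, hmem, hclo, hfro, _⟩ := h7 T B
  -- supersolution
  have hsup := h1 b hsh hc2 hcB s s' t t' hs hs' ht ht' hss htt
  rw [hu, hv] at hsup
  have hcmp := (h8 T B w hw (toPT b.P s s' t t') (σ * b.D)).1 ?_ ?_
  rotate_left
  · intro z hz
    have hx := (hsup (fun k => B.x k z) (fun k => ((hmem z).1 hz k).le) (hsum z)).1
    have e1 : -∑ k, B.c k * B.ev (Dk k (Dk k (toPT b.P s s' t t'))) z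
        = σ * (-∑ k, chi b.typ u v k * evx (fun k => B.x k z) (Dk k (Dk k (toPT b.P s s' t t')))) := by
      rw [mul_neg, Finset.mul_sum]
      congr 1
      apply Finset.sum_congr rfl
      intro k _
      rw [hc k]; unfold Bary.ev; ring
    rw [e1]
    nlinarith [mul_le_mul_of_nonneg_left hx hσ.le]
  · intro z hz hz0
    exact (hsup (fun k => B.x k z) hz (hsum z)).2 hz0
  set MN := evT Mn s s' t t' with hMN
  have hwle : ∀ z ∈ T, w z ≤ MN / (Md * σ) := by
    intro z hz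
    have a1 := hcmp z hz
    have a2 := hmaj s s' t t' hs hs' ht ht' hss htt (fun k => B.x k z) (fun k => ((hmem z).1 hz k).le) (hsum z)
    rw [le_div_iff₀ (by positivity)]
    have a3 : (b.D : ℝ) * (w z * (Md * σ)) ≤ b.D * MN := by
      calc (b.D : ℝ) * (w z * (Md * σ)) = Md * (σ * b.D * w z) := by ring
        _ ≤ Md * B.ev (toPT b.P s s' t t') z := mul_le_mul_of_nonneg_left a1 hMd'.le
        _ ≤ b.D * MN := a2
    exact le_of_mul_le_mul_left a3 hD'
  have hsupw : sSup (w '' T) ≤ MN / (Md * σ) := by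
    apply csSup_le (hTn.image w)
    rintro y ⟨z, hz, rfl⟩
    exact hwle z hz
  -- trial function
  set ψ := toPT b.psi s s' t t' with hψ
  have hψh : ψ.IsHomogeneous b.m := by
    apply cor_lin_hom
    intro r hr
    apply cor_lin_hom
    intro P hPr
    exact (h6 b.m P (hpsi.2 r hr P hPr)).1
  obtain ⟨hEn, hMaR, hMaV⟩ := h2 b.m b.psi hpsi
  have hch := h5 b.typ b.q b.U0 b.U1 b.V0 b.V1 hq
  obtain ⟨hC1, hC2, hC3, hCv⟩ := hch
  have hCv' := hCv s s' t t' hss htt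
  rw [hu, hv] at hCv'
  obtain ⟨hEnR, hEnV⟩ := hEn (Bool.rec (motive := fun _ => ℕ) 1 2 b.typ) 1 (chB b) hC1 hC2 hC3
  have hfin' := h3 Mn (enTab (chB b) b.m b.psi) (maTab b.m b.psi) Md b.q b.m
    (a' + Bool.rec (motive := fun _ => ℕ) 1 2 b.typ) (b' + 1) a' b' (Bool.rec (motive := fun _ => ℕ) 1 2 b.typ + 2) 3
    hMn hEnR hMaR (by ring) (by ring) hfin s s' t t' hs hs' ht ht' hss htt
  rw [hEnV s s' t t', hMaV s s' t t', ← hψ, ← hMN] at hfin'
  set φ := (X 0 * X 1 * X 2 * ψ : MP) with hφ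
  have hX : ∀ i : Fin 3, (X i : MP).IsHomogeneous 1 := fun i => MvPolynomial.isHomogeneous_X _ _
  have hφh : φ.IsHomogeneous (b.m + 3) := by
    have : (X 0 * X 1 * X 2 * ψ : MP).IsHomogeneous (1 + 1 + 1 + b.m) := (((hX 0).mul (hX 1)).mul (hX 2)).mul hψh
    have e : 1 + 1 + 1 + b.m = b.m + 3 := by ring
    rwa [e] at this
  obtain ⟨hMa0, hMaz⟩ := h10 (b.m + 3) φ hφh
  set Ma := facI (φ ^ 2) with hMa
  set EE := -∑ k, chi b.typ u v k * facI (φ * Dk k (Dk k φ)) with hEE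
  have hEn2 : -(evT (chB b).1 s s' t t' * facI (φ * Dk 0 (Dk 0 φ)) +
      evT (chB b).2.1 s s' t t' * facI (φ * Dk 1 (Dk 1 φ)) +
      evT (chB b).2.2 s s' t t' * facI (φ * Dk 2 (Dk 2 φ))) = (b.q : ℝ) ^ 2 * EE := by
    unfold chB
    rw [hCv'.1, hCv'.2.1, hCv'.2.2, hEE, Fin.sum_univ_three]
    ring
  rw [hEn2] at hfin'
  have hfac0 : facI (0 : MP) = 0 := by simp [facI]
  have hDk0 : ∀ k : Fin 3, Dk k (0 : MP) = 0 := by intro k; simp [Dk]
  have hφne : φ ≠ 0 := by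
    intro h0
    have e1 : EE = 0 := by
      rw [hEE, h0]; simp [hfac0]
    have e2 : Ma = 0 := by
      rw [hMa, h0]; simp [hfac0]
    rw [e1, e2] at hfin'
    simp at hfin'
  have hψne : ψ ≠ 0 := by
    intro h0; apply hφne; rw [hφ, h0, mul_zero]
  have hMapos : 0 < Ma := lt_of_le_of_ne hMa0 (fun h => hφne (hMaz h.symm))
  have hray := h9 T B b.m ψ hψh hψne
  rw [← hφ, ← hMa] at hray
  have e3 : (-∑ k, B.c k * facI (φ * Dk k (Dk k φ))) = σ * EE := by
    rw [hEE, mul_neg, Finset.mul_sum]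
    congr 1
    apply Finset.sum_congr rfl
    intro k _
    rw [hc k]; ring
  rw [e3] at hray
  have hl0 : 0 ≤ lambda1 T := by
    apply Real.sInf_nonneg
    rintro r ⟨v, hv, rfl⟩
    exact div_nonneg (integral_nonneg fun z => by positivity) (integral_nonneg fun z => by positivity)
  have hpi := cor_pi
  have hpos : (0 : ℝ) < 8 * π ^ 2 / 27 := by positivity
  set N := ((2 * (b.m : ℝ) + 7) * (2 * b.m + 8)) with hN
  have hNpos : 0 < N := by positivity
  have hstep1 : lambda1 T * sSup (w '' T) ≤ lambda1 T * (MN / (Md * σ)) := mul_le_mul_of_nonneg_left hsupw hl0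
  refine lt_of_le_of_lt hstep1 ?_
  rcases le_or_gt MN 0 with hneg | hposM
  · have : lambda1 T * (MN / (Md * σ)) ≤ 0 :=
      mul_nonpos_of_nonneg_of_nonpos hl0 (div_nonpos_of_nonpos_of_nonneg hneg (by positivity))
    linarith
  · have hlam : lambda1 T ≤ N * (σ * EE) / Ma := by
      rw [le_div_iff₀ hMapos]
      exact hray
    have h11 : lambda1 T * (MN / (Md * σ)) ≤ N * (σ * EE) / Ma * (MN / (Md * σ)) :=
      mul_le_mul_of_nonneg_right hlam (by positivity)
    refine lt_of_le_of_lt h11 ?_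
    have h12 : N * (σ * EE) / Ma * (MN / (Md * σ)) = N * EE * MN / (Ma * Md) := by
      field_simp
    rw [h12, div_lt_iff₀ (by positivity)]
    have h13 : 270000000 * (N * EE * MN) * (b.q : ℝ) ^ 2 < 789568352 * (Ma * Md) * (b.q : ℝ) ^ 2 := by
      calc 270000000 * (N * EE * MN) * (b.q : ℝ) ^ 2 = 270000000 * N * (MN * ((b.q : ℝ) ^ 2 * EE)) := by ring
        _ < 789568352 * Md * (b.q : ℝ) ^ 2 * Ma := hfin'
        _ = 789568352 * (Ma * Md) * (b.q : ℝ) ^ 2 := by ring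
    have h14 : 270000000 * (N * EE * MN) < 789568352 * (Ma * Md) :=
      lt_of_mul_lt_mul_right h13 (by positivity)
    have h15 : 0 < Ma * Md := by positivity
    have h16 : 789568352 * (Ma * Md) < 270000000 * (8 * π ^ 2 / 27 * (Ma * Md)) := by
      have : (789568352 : ℝ) < 270000000 * (8 * π ^ 2 / 27) := by
        have := cor_pi
        linarith
      calc 789568352 * (Ma * Md) < 270000000 * (8 * π ^ 2 / 27) * (Ma * Md) := mul_lt_mul_of_pos_right this h15
        _ = _ := by ring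
    linarith

end Pool.TRI.K
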