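import Pool.Agent.H89.TRI.Defs

/-!
# Block A of project TRI: neighbourhood of the equilateral triangle. Definitions.

`w`-plane: the standard equilateral triangle `Sg` (inradius 1, centre 0).
`ζ`-plane: the triangle `Tb β = {ζ | ζ + β conj ζ in the interior of Sg}` (every triangle is similar to one of these).
-/

open scoped Real ComplexConjugate

namespace Pool.TRI.A

/-- `ω = exp(2πi/3)` -/
noncomputable def om : ℂ := ⟨-1 / 2, √3 / 2⟩

/-- `X k w = 1 + re (ω^(-k) w)`: three times the barycentric coordinates in the standard equilateral triangle -/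
noncomputable def X (k : Fin 3) (w : ℂ) : ℝ := 1 + (w * (conj om) ^ (k : ℕ)).re

/-- the closed standard equilateral triangle -/
def Sg : Set ℂ := {w | ∀ k, 0 ≤ X k w}

/-- the real-linear map `ζ ↦ ζ + β conj ζ` -/
noncomputable def aff (β ζ : ℂ) : ℂ := ζ + β * conj ζ

/-- the open triangle `Tb β` -/
def Tb (β : ℂ) : Set ℂ := {ζ | ∀ k, 0 < X k (aff β ζ)}

noncomputable def E (w : ℂ) : ℝ := X 0 w * X 1 w * X 2 w

/-- the exit time function of the standard equilateral triangle -/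
noncomputable def F0 (w : ℂ) : ℝ := 2 / 3 * E w

/-- sum of the terms `c w^a (conj w)^b` over a list of triples `(c, a, b)` -/
noncomputable def ev (l : List (ℤ × ℕ × ℕ)) (w : ℂ) : ℂ :=
  (l.map fun t => (t.1 : ℂ) * w ^ t.2.1 * (conj w) ^ t.2.2).sum

/-- data: first order corrector, `f = E * g` -/
def gl : List (ℤ × ℕ × ℕ) := [(69675733, 1, 0), (12196151, 0, 2), (2257614, 2, 1), (473197, 1, 3), (438969, 4, 0), (104857, 0, 5), (195706, 3, 2), (46647, 2, 4), (12921, 5, 1), (-24407, 1, 6), (-20533, 4, 3), (9402, 7, 0), (5632, 0, 8), (6419, 3, 5), (15391, 6, 2), (20878, 2, 7), (19871, 5, 4), (697, 8, 1)]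

/-- data: barrier, `Bm = E * re b` -/
def bl : List (ℤ × ℕ × ℕ) := [(157168, 0, 0), (66608, 1, 1), (-26671, 3, 0), (-14252, 2, 2), (74276, 4, 1), (4258, 6, 0), (25952, 3, 3), (-69993, 5, 2), (4608, 7, 1), (-3648, 4, 4), (23, 9, 0), (30771, 6, 3)]

/-- data: the coefficients of `8 * 10^8 * f` -/
def fl : List (ℤ × ℕ × ℕ) := [(557405864, 1, 0), (-399993486, 2, 1), (73187485, 4, 0), (284403, 1, 3), (97569208, 0, 2), (216115, 3, 2), (13035007, 0, 5), (-272832, 5, 1), (-208392, 2, 4), (-426334, 4, 3), (-351201, 1, 6), (514185, 7, 0), (72033, 3, 5), (149913, 0, 8), (241308, 6, 2), (341734, 5, 4), (360113, 2, 7), (-37915, 8, 1), (-83454, 4, 6), (-58199, 1, 9), (-103477, 7, 3), (9402, 10, 0), (-113217, 3, 8), (5632, 0, 11), (-97416, 6, 5), (11209, 9, 2), (40749, 5, 7), (20878, 2, 10), (20568, 8, 4), (697, 11, 1)]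

noncomputable def g (w : ℂ) : ℂ := ev gl w / 10 ^ 8

/-- first order corrector -/
noncomputable def f (w : ℂ) : ℂ := E w * g w

/-- barrier -/
noncomputable def Bm (w : ℂ) : ℝ := E w * ((ev bl w).re / 10 ^ 8)

/-- the approximate solution (in the variable `w = aff β ζ`) -/
noncomputable def pp (β w : ℂ) : ℝ := F0 w + (β / (1 + ‖β‖ ^ 2 : ℝ) * f w).re

/-- `∂f/∂(conj w)` -/
noncomputable def fwb (w : ℂ) : ℂ :=
  (fl.map fun t => (t.1 : ℂ) * t.2.2 * w ^ t.2.1 * (conj w) ^ (t.2.2 - 1)).sum / (8 * 10 ^ 8)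

/-- the harmonic second order corrector -/
noncomputable def hh (ζ : ℂ) : ℝ :=
  (-28141097 + (-43490070) * (ζ ^ 3).re + 2166284 * (ζ ^ 6).re + 69115 * (ζ ^ 9).re + 7464 * (ζ ^ 12).re) / 10 ^ 8

/-- the comparison function of the second level -/
noncomputable def HH (β ζ : ℂ) : ℝ := (1 + ‖β‖ ^ 2) * F0 ζ + ‖β‖ ^ 2 * hh ζ

/-- bound for the slope of the barrier at the side `X 0 = 0` as a function of `v = (im w)^2` -/
noncomputable def GB (v : ℝ) : ℝ := (549191 + (-354762) * v + 685541 * v ^ 2) / 10 ^ 8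

/-- second order remainder constant of `f` on circles -/
noncomputable def D2 (r : ℝ) : ℝ :=
  (fl.map fun t => |(t.1 : ℝ)| * ((t.2.1 + t.2.2).choose 2 : ℝ) * r ^ (t.2.1 + t.2.2)).sum / (8 * 10 ^ 8)

end Pool.TRI.A
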