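import Pool.Agent.H89.TRI.Lib

open MeasureTheory Set Filter Topology MvPolynomial
open scoped Real ContDiff Laplacian

namespace Pool.TRI.K

theorem fin_ (h1 : TABMStmt) (h2 : TABTStmt) (h3 : TABPStmt) : FINStmt := by
  intro Mn En Ma Md q m a b a1 b1 a2 b2 hMn hEn hMa ha hb hfin s s' t t' hs hs' ht ht' hss htt
  obtain ⟨hone, honev⟩ := h2.2.2 a b
  obtain ⟨hL1, _, hL1v⟩ := h2.2.1 (a + 1) (b + 1) (Int.mul (Int.mul 789568352 Md) (Int.mul q q)) (oneT a b) hone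
  obtain ⟨hL2, hL2v⟩ := h1.2 a b 2 2 _ Ma hL1 hMa
  obtain ⟨hR1, hR1v⟩ := h1.2 a1 b1 a2 b2 Mn En hMn hEn
  rw [ha, hb] at hR1
  obtain ⟨hR2, _, hR2v⟩ := h2.2.1 (a + 2 + 1) (b + 2 + 1)
    (Int.mul 270000000 (Int.mul (2 * (m : ℤ) + 7) (2 * (m : ℤ) + 8))) (mulT Mn En) hR1
  obtain ⟨_, hD, hDv⟩ := h2.1 (a + 2 + 1) (b + 2 + 1) _ _ hL2 hR2
  have hpos := h3.2.1 (a + 2) (b + 2) _ hD hfin s s' t t' hs hs' ht ht' hss htt
  rw [(hDv s s' t t').2, hL2v, (hL1v s s' t t').1, honev, (hR2v s s' t t').1, hR1v, hss, htt] at hpos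
  simp only [Int.mul_def, Int.cast_mul, Int.cast_add, Int.cast_natCast, Int.cast_ofNat, one_pow, mul_one] at hpos
  linarith

end Pool.TRI.K
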