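import Pool.Agent.H89.TRI.Lib

open MeasureTheory Set Filter Topology MvPolynomial
open scoped Real ContDiff Laplacian

namespace Pool.TRI

theorem final : FINALStmt := by
  intro hnear hequi hfar hbary hord heqd A B C hABC u hu
  obtain ⟨D, hD⟩ := hbary A B C hABC
  have hiff := heqd A B C D hD.1 hD.2.1 hD.2.2.1 hD.2.2.2.1 hD.2.2.2.2.1 hD.2.2.2.2.2.1 hD.2.2.2.2.2.2.1
    hD.2.2.2.2.2.2.2.1 hD.2.2.2.2.2.2.2.2
  obtain ⟨B', h21, h10, hB'⟩ := hord (tri A B C) D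
  by_cases heq : B'.c 0 = B'.c 1 ∧ B'.c 1 = B'.c 2
  · have h := hequi (tri A B C) B' u hu heq.1 heq.2
    exact ⟨h.le, ⟨fun _ => hiff.1 (hB'.2 heq), fun _ => h⟩⟩
  · have hlt : lambda1 (tri A B C) * sSup (u '' tri A B C) < 8 * π ^ 2 / 27 := by
      rcases le_or_gt ((1 - 6 / 1000) * B'.c 0) (B'.c 2) with h | h
      · exact hnear (tri A B C) B' u hu h21 h10 h heq
      · exact hfar (tri A B C) B' u hu h21 h10 h
    exact ⟨hlt.le, ⟨fun h => absurd h hlt.ne, fun h => absurd (hB'.1 (hiff.2 h)) heq⟩⟩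

end Pool.TRI
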