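import Pool.Agent.H69.TRI.StmtsP

open MeasureTheory Set Filter Topology InnerProductSpace Metric
open scoped Real ComplexConjugate ContDiff Laplacian

namespace Pool.TRI.A

private theorem j0_sum (hG : Geo1Stmt) (β ζ : ℂ) :
    aff β ζ + aff (om * β) ζ + aff (om ^ 2 * β) ζ = 3 * ζ := by
  have h := hG.2.1
  unfold aff
  linear_combination (β * conj ζ) * h

private theorem j0_X (hG : Geo1Stmt) (k : Fin 3) (β ζ : ℂ) :
    X k (aff β ζ) + X k (aff (om * β) ζ) + X k (aff (om ^ 2 * β) ζ) = 3 * X k ζ := by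
  have h := j0_sum hG β ζ
  unfold X
  have h2 : ((aff β ζ + aff (om * β) ζ + aff (om ^ 2 * β) ζ) * (conj om) ^ (k : ℕ)).re
      = (3 * ζ * (conj om) ^ (k : ℕ)).re := by rw [h]
  have h3 : (3 * (ζ * (conj om) ^ (k : ℕ))).re = 3 * (ζ * (conj om) ^ (k : ℕ)).re := by
    simp [Complex.mul_re]
  rw [add_mul, add_mul, Complex.add_re, Complex.add_re, mul_assoc 3 ζ, h3] at h2
  linarith

theorem j0 (hG : Geo1Stmt) (h1 : T1Stmt) (h2 : T2Stmt) (h3 : T3Stmt) (h4 : N4Stmt) : J0Stmt := by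
  intro β ζ hβ hw0 hw1 hw2 hX
  have hs0 : 0 ≤ ‖β‖ := norm_nonneg β
  have hr0 : 0 ≤ ‖ζ‖ := norm_nonneg ζ
  have hζ : ζ ∈ Sg := by
    intro k
    have := j0_X hG k β ζ
    have a := hw0 k
    have b := hw1 k
    have c := hw2 k
    linarith
  have hF : 0 ≤ F0 ζ := by
    unfold F0 E
    have a := hζ 0
    have b := hζ 1
    have c := hζ 2
    positivity
  have hre : 1 + ζ.re ≤ ‖β‖ * ‖ζ‖ := by
    have : X 0 (aff β ζ) = 1 + ζ.re + (β * conj ζ).re := by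
      unfold X aff; simp; ring
    rw [this] at hX
    have h5 : -(β * conj ζ).re ≤ ‖β * conj ζ‖ := by
      have := Complex.abs_re_le_norm (β * conj ζ)
      rw [abs_le] at this; linarith
    rw [norm_mul, RCLike.norm_conj] at h5
    linarith
  have t1 := h1 β ζ
  have t2 := h2 β ζ hβ
  have t3 := h3 β ζ hβ hw0 hw1 hw2 hX
  have t4 := h4 ζ hζ ‖β‖ hs0 hβ hre
  set s := ‖β‖ with hs
  set r := ‖ζ‖ with hr
  -- the f terms
  have hdiv : ∀ γ w : ℂ, (γ / (1 + s ^ 2 : ℝ) * w).re = (γ * w).re / (1 + s ^ 2) := by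
    intro γ w
    rw [div_mul_eq_mul_div, Complex.div_ofReal_re]
  rw [hdiv, hdiv, hdiv]
  have hcube : ((β * conj ζ) ^ 3).re ≤ s ^ 3 * r ^ 3 := by
    have h6 := Complex.re_le_norm ((β * conj ζ) ^ 3)
    have h7 : ‖(β * conj ζ) ^ 3‖ = s ^ 3 * r ^ 3 := by
      rw [norm_pow, norm_mul, RCLike.norm_conj, mul_pow]
    rw [h7] at h6
    exact h6
  set A := (β * f (aff β ζ)).re + (om * β * f (aff (om * β) ζ)).re + (om ^ 2 * β * f (aff (om ^ 2 * β) ζ)).re with hA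
  set R := (ζ * fwb ζ).re with hR
  have hAle : A / 3 ≤ s ^ 2 * R + 10102 / 10000 * s ^ 3 * D2 r := by
    have := (abs_le.mp t2).2
    linarith
  set Bs := Bm (aff β ζ) + Bm (aff (om * β) ζ) + Bm (aff (om ^ 2 * β) ζ) with hBs
  set FF := F0 (aff β ζ) + F0 (aff (om * β) ζ) + F0 (aff (om ^ 2 * β) ζ) with hFF
  have hD2 : 0 ≤ D2 r := by
    unfold D2
    apply div_nonneg _ (by norm_num)
    apply List.sum_nonneg
    intro y hy
    rw [List.mem_map] at hy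
    obtain ⟨t, _, rfl⟩ := hy
    positivity
  have h1s : 0 < 1 + s ^ 2 := by positivity
  have e1 : A / (1 + s ^ 2) / 3 ≤ s ^ 2 * R + s ^ 4 * |R| + 10102 / 10000 * s ^ 3 * D2 r := by
    have e2 : A / (1 + s ^ 2) / 3 = A / 3 / (1 + s ^ 2) := by ring
    rw [e2, div_le_iff₀ h1s]
    have hRa : -|R| ≤ R := neg_abs_le R
    have hRb : 0 ≤ |R| := abs_nonneg R
    have q1 : 0 ≤ s ^ 4 * (R + |R|) := mul_nonneg (by positivity) (by linarith)
    have q2 : 0 ≤ s ^ 6 * |R| := by positivity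
    have q3 : 0 ≤ s ^ 5 * D2 r := by positivity
    nlinarith [q1, q2, q3]
  have hB : s * (Bs / 3) ≤ s * (s * r * (GB (ζ.im ^ 2) + s * r * GD (ζ.im ^ 2))) :=
    mul_le_mul_of_nonneg_left t3 hs0
  have hN : s ^ 2 * (s * r ^ 3 / 6 + 10102 / 10000 * s * D2 r + s ^ 2 * |R|
    + r * (GB (ζ.im ^ 2) + s * r * GD (ζ.im ^ 2))) ≤ s ^ 2 * (hh ζ + r ^ 2 / 2 - R) :=
    mul_le_mul_of_nonneg_left t4 (by positivity)
  have hlhs : (FF + (β * f (aff β ζ)).re / (1 + s ^ 2) + (om * β * f (aff (om * β) ζ)).re / (1 + s ^ 2)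
      + (om ^ 2 * β * f (aff (om ^ 2 * β) ζ)).re / (1 + s ^ 2) + s * Bs) / 3
      = FF / 3 + A / (1 + s ^ 2) / 3 + s * (Bs / 3) := by
    rw [hA]; ring
  rw [hlhs, t1]
  unfold HH
  rw [← hs]
  have hFs : 0 ≤ s ^ 2 * F0 ζ := by positivity
  nlinarith [hcube, e1, hB, hN, hFs]

end Pool.TRI.A
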