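import Pool.Agent.H89.TRI.Lib

open MeasureTheory Set Filter Topology MvPolynomial
open scoped Real ContDiff Laplacian

namespace Pool.TRI.K

theorem maxc (h1 : SHPStmt) (h2 : POSNStmt) (h3 : ALGAStmt) (h4 : ALGMStmt) (h5 : TABAStmt) (h6 : TABPStmt) :
    MAXCStmt := by
  intro b M Km wm fm hsh hM hchk s s' t t' hs hs' ht ht' hss htt x hx hx1
  have hMR := ((h1.2.1 ℤ 3 3 (fun _ => true) M).1 hM).1
  have hP := ((h1.2.2.2.1 b).1 hsh).1
  obtain ⟨hsig, hsigv⟩ := h4.2 (b.n + 2)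
  obtain ⟨hT1, hT1v⟩ := h5.2.2 (b.n + 3) 3 3 M (sig (b.n + 2)) hMR hsig
  obtain ⟨_, hT2, hT2v⟩ := h5.1 (b.n + 3) 3 3 _ _ hT1 hP
  have hflat := h6.2.2 (b.n + 3) 3 3 _ hT2
  have hpos := h2 Km wm fm (b.n + 2) _ hchk (fun P hPm => by
    obtain ⟨r, hr, hPr⟩ := (hflat P).1 hPm
    exact hT2.2 r hr P hPr)
  have hnn := h6.1 (b.n + 3) 3 3 _ hT2 s s' t t' hs hs' ht ht' x (fun P hPm => by
    rw [evx_toP]
    exact hpos P hPm _ _ _ (hx 0) (hx 1) (hx 2))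
  rw [(hT2v s s' t t').2, hT1v, hsigv] at hnn
  have he : evx x (evT M s s' t t' • (X 0 + X 1 + X 2 : MP) ^ (b.n + 2) - toPT b.P s s' t t')
      = evT M s s' t t' - evx x (toPT b.P s s' t t') := by
    unfold evx
    rw [map_sub, MvPolynomial.smul_eval, map_pow, map_add, map_add, eval_X, eval_X, eval_X, hx1, one_pow, mul_one]
  rw [he] at hnn
  linarith

end Pool.TRI.K
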