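import Pool.Agent.H89.TRI.Lib

open MeasureTheory Set Filter Topology MvPolynomial
open scoped Real ContDiff Laplacian

namespace Pool.TRI.K

private theorem maxq_len {α : Type} {a b : ℕ} {T : List (List α)} (h : Rect a b T) : (flat T).length = a * b := by
  rw [flat_eq, List.length_flatten]
  obtain ⟨h1, h2⟩ := h
  have : T.map List.length = List.replicate a b := by
    rw [List.eq_replicate_iff]
    refine ⟨by simp [h1], ?_⟩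
    intro x hx
    rw [List.mem_map] at hx
    obtain ⟨r, hr, rfl⟩ := hx
    exact h2 r hr
  rw [this]; simp

private theorem maxq_Y1 (n1 n2 n3 : ℤ) : Sh 2 (Y1 n1 n2 n3) ∧
    ∀ x : Fin 3 → ℝ, x 0 + x 1 + x 2 = 1 → evx x (toP (Y1 n1 n2 n3)) = (n1 + n2 + n3) * x 0 - n1 := by
  refine ⟨⟨rfl, rfl, rfl⟩, ?_⟩
  intro x hx
  rw [evx_toP]
  unfold evN Y1
  simp only [ter_cons, ter_nil, lin_cons, lin_nil, smul_eq_mul, List.length_cons, List.length_nil]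
  push_cast
  have : x 2 = 1 - x 0 - x 1 := by linarith
  rw [this]; ring

private theorem maxq_Y2 (n1 n2 n3 : ℤ) : Sh 2 (Y2 n1 n2 n3) ∧
    ∀ x : Fin 3 → ℝ, x 0 + x 1 + x 2 = 1 → evx x (toP (Y2 n1 n2 n3)) = (n1 + n2 + n3) * x 1 - n2 := by
  refine ⟨⟨rfl, rfl, rfl⟩, ?_⟩
  intro x hx
  rw [evx_toP]
  unfold evN Y2
  simp only [ter_cons, ter_nil, lin_cons, lin_nil, smul_eq_mul, List.length_cons, List.length_nil]
  push_cast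
  have : x 2 = 1 - x 0 - x 1 := by linarith
  rw [this]; ring

private theorem maxq_alg (u11 u12 u22 g1 g2 y1 y2 mh F : ℝ) (hu : 0 < u11) (hd : 0 < 4 * (u11 * u22 - u12 * u12))
    (h : F ≤ mh ∨ F ≤ mh + g1 * y1 + g2 * y2 - (u11 * y1 ^ 2 + 2 * u12 * (y1 * y2) + u22 * y2 ^ 2)) :
    4 * (u11 * u22 - u12 * u12) * F ≤ 4 * (u11 * u22 - u12 * u12) * mh +
      (u22 * g1 ^ 2 - 2 * u12 * (g1 * g2) + u11 * g2 ^ 2) := by
  set d := 4 * (u11 * u22 - u12 * u12) with hdd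
  have hform : ∀ a b : ℝ, 0 ≤ u22 * a ^ 2 - 2 * u12 * (a * b) + u11 * b ^ 2 := by
    intro a b
    have : 0 ≤ u11 * (u22 * a ^ 2 - 2 * u12 * (a * b) + u11 * b ^ 2) := by
      have e : u11 * (u22 * a ^ 2 - 2 * u12 * (a * b) + u11 * b ^ 2) = (u11 * b - u12 * a) ^ 2 + d / 4 * a ^ 2 := by
        rw [hdd]; ring
      rw [e]; positivity
    by_contra hc
    push Not at hc
    have := mul_neg_of_pos_of_neg hu hc
    linarith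
  rcases h with h | h
  · have h1 := hform g1 g2
    nlinarith [mul_le_mul_of_nonneg_left h hd.le]
  · have h1 := mul_le_mul_of_nonneg_left h hd.le
    -- a = g1 - 2(u11 y1 + u12 y2), b = g2 - 2(u12 y1 + u22 y2)
    have h2 := hform (g1 - 2 * (u11 * y1 + u12 * y2)) (g2 - 2 * (u12 * y1 + u22 * y2))
    have e : u22 * (g1 - 2 * (u11 * y1 + u12 * y2)) ^ 2 - 2 * u12 * ((g1 - 2 * (u11 * y1 + u12 * y2)) *
        (g2 - 2 * (u12 * y1 + u22 * y2))) + u11 * (g2 - 2 * (u12 * y1 + u22 * y2)) ^ 2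
        = (u22 * g1 ^ 2 - 2 * u12 * (g1 * g2) + u11 * g2 ^ 2)
          - d * (g1 * y1 + g2 * y2 - (u11 * y1 ^ 2 + 2 * u12 * (y1 * y2) + u22 * y2 ^ 2)) := by
      rw [hdd]; ring
    rw [e] at h2
    linarith

theorem maxq (h1 : SHPStmt) (h2 : POSQStmt) (h3 : ALGAStmt) (h4 : ALGMStmt) (h5 : TABAStmt) (h6 : TABMStmt)
    (h7 : TABTStmt) (h8 : TABPStmt) : MAXQStmt := by
  intro b Q hsh hQ hchk
  have hP := ((h1.2.2.2.1 b).1 hsh).1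
  obtain ⟨hmh, hg1, hg2, hn1, hn2, hn3, hbe, hu11, hdel⟩ := (h1.2.2.2.2 Q).1 hQ
  -- shapes of MnQ
  obtain ⟨hone, honev⟩ := h7.2.2 2 2
  obtain ⟨hA1, _, hA1v⟩ := h7.2.1 3 3 (del4 Q) (oneT 2 2) hone
  obtain ⟨hA2, hA2v⟩ := h6.2 2 2 2 2 _ Q.mh hA1 hmh
  obtain ⟨hG11, hG11v⟩ := h6.2 2 2 2 2 Q.g1 Q.g1 hg1 hg1
  obtain ⟨hG12, hG12v⟩ := h6.2 2 2 2 2 Q.g1 Q.g2 hg1 hg2
  obtain ⟨hG22, hG22v⟩ := h6.2 2 2 2 2 Q.g2 Q.g2 hg2 hg2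
  obtain ⟨hS1, _, hS1v⟩ := h7.2.1 5 5 Q.u22 _ hG11
  obtain ⟨hS2, _, hS2v⟩ := h7.2.1 5 5 (-2 * Q.u12) _ hG12
  obtain ⟨hS3, _, hS3v⟩ := h7.2.1 5 5 Q.u11 _ hG22
  obtain ⟨hT1, _, hT1v⟩ := h7.1 5 5 _ _ hS2 hS3
  obtain ⟨hT2, _, hT2v⟩ := h7.1 5 5 _ _ hS1 hT1
  obtain ⟨hT3, _, hT3v⟩ := h7.1 5 5 _ _ hA2 hT2
  refine ⟨hT3, ?_⟩
  -- majorants
  obtain ⟨hsig0, hsig0v⟩ := h4.2 b.n
  obtain ⟨hsig1, hsig1v⟩ := h4.2 (b.n + 1)
  obtain ⟨hsig2, hsig2v⟩ := h4.2 (b.n + 2)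
  obtain ⟨hY1, hY1v⟩ := maxq_Y1 Q.n1 Q.n2 Q.n3
  obtain ⟨hY2, hY2v⟩ := maxq_Y2 Q.n1 Q.n2 Q.n3
  set Ya := Y1 Q.n1 Q.n2 Q.n3 with hYa
  set Yb := Y2 Q.n1 Q.n2 Q.n3 with hYb
  have hc1 : 1 + (b.n + 1) + 1 = b.n + 3 := by ring
  obtain ⟨hM1, hM1v⟩ := h4.1 1 (b.n + 1) Ya (sig (b.n + 1)) hY1 hsig1
  obtain ⟨hM2, hM2v⟩ := h4.1 1 (b.n + 1) Yb (sig (b.n + 1)) hY2 hsig1
  rw [hc1] at hM1 hM2
  obtain ⟨hN11, hN11v⟩ := h4.1 1 1 Ya Ya hY1 hY1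
  obtain ⟨hN12, hN12v⟩ := h4.1 1 1 Ya Yb hY1 hY2
  obtain ⟨hN22, hN22v⟩ := h4.1 1 1 Yb Yb hY2 hY2
  obtain ⟨hO1, hO1v⟩ := h3.2.2 3 Q.u11 _ hN11
  obtain ⟨hO2, hO2v⟩ := h3.2.2 3 (2 * Q.u12) _ hN12
  obtain ⟨hO3, hO3v⟩ := h3.2.2 3 Q.u22 _ hN22
  obtain ⟨hR1, hR1v⟩ := h3.1 3 _ _ hO1 hO2
  obtain ⟨hR2, hR2v⟩ := h3.1 3 _ _ hR1 hO3
  obtain ⟨hU, hUv⟩ := h4.1 2 b.n _ (sig b.n) hR2 hsig0
  have hc2 : 2 + b.n + 1 = b.n + 3 := by ring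
  rw [hc2] at hU
  obtain ⟨hV0, hV0v⟩ := h5.2.2 (b.n + 3) 3 3 Q.mh (sig (b.n + 2)) hmh hsig2
  obtain ⟨_, hB, hBv⟩ := h5.1 (b.n + 3) 3 3 _ _ hV0 hP
  obtain ⟨hV1, hV1v⟩ := h5.2.2 (b.n + 3) 3 3 Q.g1 _ hg1 hM1
  obtain ⟨hV2, hV2v⟩ := h5.2.2 (b.n + 3) 3 3 Q.g2 _ hg2 hM2
  obtain ⟨hW1, _, hW1v⟩ := h5.1 (b.n + 3) 3 3 _ _ hV1 hV2
  obtain ⟨hW2, _, hW2v⟩ := h5.1 (b.n + 3) 3 3 _ _ hB hW1
  obtain ⟨hneg, _, hnegv⟩ := h7.2.1 3 3 (-1) (oneT 2 2) hone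
  obtain ⟨hV3, hV3v⟩ := h5.2.2 (b.n + 3) 3 3 (smT (-1) (oneT 2 2)) _ hneg hU
  obtain ⟨hA, _, hAv⟩ := h5.1 (b.n + 3) 3 3 _ _ hW2 hV3
  have hBdef : majB b Q = subTN (tabN Q.mh (sig (b.n + 2))) b.P := rfl
  rw [← hBdef] at hB hBv hW2 hW2v hA hAv
  have hflatB := h8.2.2 (b.n + 3) 3 3 _ hB
  have hflatA := h8.2.2 (b.n + 3) 3 3 (majA b Q) hA
  have hpos := h2 Q (b.n + 2) (flat (majA b Q)) (flat (majB b Q)) hchk
    (by rw [maxq_len hB.1, maxq_len (T := majA b Q) hA.1])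
    (fun P hPm => by
      obtain ⟨r, hr, hPr⟩ := (hflatA P).1 hPm
      exact hA.2 r hr P hPr)
    (fun P hPm => by
      obtain ⟨r, hr, hPr⟩ := (hflatB P).1 hPm
      exact hB.2 r hr P hPr) hn1 hn2 hn3 hbe
  intro s s' t t' hs hs' ht ht' hss htt x hx hx1
  have hmn : evT (MnQ Q) s s' t t' = del4 Q * evT Q.mh s s' t t' + (Q.u22 * evT Q.g1 s s' t t' ^ 2
      - 2 * Q.u12 * (evT Q.g1 s s' t t' * evT Q.g2 s s' t t') + Q.u11 * evT Q.g2 s s' t t' ^ 2) := by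
    unfold MnQ
    rw [(hT3v s s' t t').1, (hT2v s s' t t').1, (hT1v s s' t t').1, hA2v, (hA1v s s' t t').1, honev,
      (hS1v s s' t t').1, (hS2v s s' t t').1, (hS3v s s' t t').1, hG11v, hG12v, hG22v, hss, htt]
    push_cast; ring
  rw [hmn]
  have hdelR : (del4 Q : ℝ) = 4 * ((Q.u11 : ℝ) * Q.u22 - Q.u12 * Q.u12) := by
    unfold del4; push_cast; ring
  rw [hdelR]
  have hdel' : (0 : ℝ) < 4 * ((Q.u11 : ℝ) * Q.u22 - Q.u12 * Q.u12) := by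
    rw [← hdelR]; exact_mod_cast hdel
  have hu11' : (0 : ℝ) < Q.u11 := by exact_mod_cast hu11
  set y1 := ((Q.n1 : ℝ) + Q.n2 + Q.n3) * x 0 - Q.n1 with hy1
  set y2 := ((Q.n1 : ℝ) + Q.n2 + Q.n3) * x 1 - Q.n2 with hy2
  have hYav : evx x (toP Ya) = y1 := by
    have := hY1v x hx1
    rw [this, hy1]; push_cast; ring
  have hYbv : evx x (toP Yb) = y2 := by
    have := hY2v x hx1
    rw [this, hy2]; push_cast; ring
  have hσ : ∀ k : ℕ, evx x ((X 0 + X 1 + X 2 : MP) ^ k) = 1 := by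
    intro k
    unfold evx
    rw [map_pow, map_add, map_add, eval_X, eval_X, eval_X, hx1, one_pow]
  have evadd : ∀ F G : MP, evx x (F + G) = evx x F + evx x G := fun F G => map_add _ _ _
  have evsub : ∀ F G : MP, evx x (F - G) = evx x F - evx x G := fun F G => map_sub _ _ _
  have evmul : ∀ F G : MP, evx x (F * G) = evx x F * evx x G := fun F G => map_mul _ _ _
  have evsm : ∀ (c : ℝ) (F : MP), evx x (c • F) = c * evx x F := fun c F => MvPolynomial.smul_eval _ _ _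
  have hBx : evx x (toPT (majB b Q) s s' t t') = evT Q.mh s s' t t' - evx x (toPT b.P s s' t t') := by
    rw [(hBv s s' t t').2, hV0v, hsig2v, evsub, evsm, hσ, mul_one]
  refine maxq_alg _ _ _ _ _ y1 y2 _ _ hu11' hdel' ?_
  rcases hpos (x 0) (x 1) (x 2) (hx 0) (hx 1) (hx 2) with h | h
  · right
    have hnn := h8.1 (b.n + 3) 3 3 _ hA s s' t t' hs hs' ht ht' x (fun P hPm => by
      rw [evx_toP]; exact h P hPm)
    have hAx : evx x (toPT (majA b Q) s s' t t') = (evT Q.mh s s' t t' - evx x (toPT b.P s s' t t'))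
        + evT Q.g1 s s' t t' * y1 + evT Q.g2 s s' t t' * y2
        - (Q.u11 * y1 ^ 2 + 2 * Q.u12 * (y1 * y2) + Q.u22 * y2 ^ 2) := by
      unfold majA
      rw [(hAv s s' t t').1, (hW2v s s' t t').1, (hW1v s s' t t').1, hV1v, hV2v, hV3v, hM1v, hM2v, hUv, hR2v, hR1v,
        hO1v, hO2v, hO3v, hN11v, hN12v, hN22v, hsig0v, hsig1v, (hnegv s s' t t').1, honev, hss, htt]
      simp only [evadd, evmul, evsm, hσ, hYav, hYbv, hBx]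
      push_cast; ring
    have hnn' : 0 ≤ evx x (toPT (majA b Q) s s' t t') := hnn
    rw [hAx] at hnn'
    linarith
  · left
    have hnn := h8.1 (b.n + 3) 3 3 _ hB s s' t t' hs hs' ht ht' x (fun P hPm => by
      rw [evx_toP]; exact h P hPm)
    rw [hBx] at hnn
    linarith

end Pool.TRI.K
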