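import Pool.Agent.H69.TRI.StmtsL

/-!
# Block A of project TRI: a small library of computable polynomials in `x 0, x 1, x 2` (proved)
-/

open MeasureTheory Set Filter Topology InnerProductSpace Metric
open scoped Real ComplexConjugate ContDiff Laplacian

namespace Pool.TRI.A

/-- polynomials in `x 0, x 1, x 2` with integer coefficients: lists of `(coefficient, exponents)` -/
abbrev PX := List (ℤ × ℕ × ℕ × ℕ)

/-- value of a monomial -/
noncomputable def mon (t : ℤ × ℕ × ℕ × ℕ) (x : Fin 3 → ℝ) : ℝ :=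
  (t.1 : ℝ) * (x 0 ^ t.2.1 * x 1 ^ t.2.2.1 * x 2 ^ t.2.2.2)

/-- value of a polynomial -/
noncomputable def evx (l : PX) (x : Fin 3 → ℝ) : ℝ := (l.map fun t => mon t x).sum

namespace PX

def scale (c : ℤ) (l : PX) : PX := l.map fun t => (c * t.1, t.2)

def mul (l m : PX) : PX :=
  l.flatMap fun s => m.map fun t => (s.1 * t.1, s.2.1 + t.2.1, s.2.2.1 + t.2.2.1, s.2.2.2 + t.2.2.2)

/-- substitution `(x 0, x 1, x 2) ↦ (x 2, x 0, x 1)` -/
def rot (l : PX) : PX := l.map fun t => (t.1, t.2.2.1, t.2.2.2, t.2.1)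

/-- partial derivative -/
def pd (i : Fin 3) (l : PX) : PX := l.map fun t => match i with
  | 0 => (t.2.1 * t.1, t.2.1 - 1, t.2.2.1, t.2.2.2)
  | 1 => (t.2.2.1 * t.1, t.2.1, t.2.2.1 - 1, t.2.2.2)
  | 2 => (t.2.2.2 * t.1, t.2.1, t.2.2.1, t.2.2.2 - 1)

/-- the derivative `DD k` -/
def dd (k : Fin 3) (l : PX) : PX := pd (k + 1) l ++ scale (-1) (pd (k + 2) l)

/-- exact integral over the simplex (see `DirStmt`) -/
def int (l : PX) : ℚ :=
  (l.map fun t => (t.1 : ℚ) * ((t.2.1.factorial * t.2.2.1.factorial * t.2.2.2.factorial : ℕ) : ℚ)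
    / ((t.2.1 + t.2.2.1 + t.2.2.2 + 2).factorial : ℚ)).sum

end PX

open PX

@[simp] theorem evx_nil (x : Fin 3 → ℝ) : evx [] x = 0 := by simp [evx]

theorem evx_cons (t : ℤ × ℕ × ℕ × ℕ) (l : PX) (x : Fin 3 → ℝ) : evx (t :: l) x = mon t x + evx l x := by
  simp [evx]

theorem evx_append (l m : PX) (x : Fin 3 → ℝ) : evx (l ++ m) x = evx l x + evx m x := by
  simp [evx]

theorem evx_scale (c : ℤ) (l : PX) (x : Fin 3 → ℝ) : evx (scale c l) x = c * evx l x := by
  induction l with
  | nil => simp [scale]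
  | cons t l ih =>
    have : scale c (t :: l) = (c * t.1, t.2) :: scale c l := rfl
    rw [this, evx_cons, evx_cons, ih]
    simp only [mon]; push_cast; ring

theorem evx_mul (l m : PX) (x : Fin 3 → ℝ) : evx (mul l m) x = evx l x * evx m x := by
  have key : ∀ (s : ℤ × ℕ × ℕ × ℕ) (m : PX),
      evx (m.map fun t => (s.1 * t.1, s.2.1 + t.2.1, s.2.2.1 + t.2.2.1, s.2.2.2 + t.2.2.2)) x = mon s x * evx m x := by
    intro s m
    induction m with
    | nil => simp
    | cons t m ih =>
      rw [List.map_cons, evx_cons, evx_cons, ih]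
      simp only [mon]; push_cast; ring
  induction l with
  | nil => simp [mul]
  | cons s l ih =>
    have : mul (s :: l) m = (m.map fun t => (s.1 * t.1, s.2.1 + t.2.1, s.2.2.1 + t.2.2.1, s.2.2.2 + t.2.2.2))
        ++ mul l m := by simp [mul]
    rw [this, evx_append, key, ih, evx_cons]; ring

theorem evx_rot (l : PX) (x : Fin 3 → ℝ) : evx (rot l) x = evx l ![x 2, x 0, x 1] := by
  induction l with
  | nil => simp [rot]
  | cons t l ih =>
    have : rot (t :: l) = (t.1, t.2.2.1, t.2.2.2, t.2.1) :: rot l := rfl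
    rw [this, evx_cons, evx_cons, ih]
    have : mon (t.1, t.2.2.1, t.2.2.2, t.2.1) x = mon t ![x 2, x 0, x 1] := by
      simp only [mon, Matrix.cons_val_zero, Matrix.cons_val_one, Matrix.cons_val]; ring
    rw [this]

theorem contDiff_evx (l : PX) {n : WithTop ℕ∞} : ContDiff ℝ n (evx l) := by
  induction l with
  | nil =>
    have : evx [] = fun _ => (0 : ℝ) := by funext x; simp
    rw [this]; exact contDiff_const
  | cons t l ih =>
    have : evx (t :: l) = fun x => mon t x + evx l x := by funext x; exact evx_cons t l x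
    rw [this]
    refine ContDiff.add ?_ ih
    unfold mon
    fun_prop

theorem continuous_evx (l : PX) : Continuous (evx l) := (contDiff_evx (n := 0) l).continuous

theorem fderiv_evx (l : PX) (x v : Fin 3 → ℝ) :
    fderiv ℝ (evx l) x v = v 0 * evx (pd 0 l) x + v 1 * evx (pd 1 l) x + v 2 * evx (pd 2 l) x := by
  induction l with
  | nil =>
    have : evx [] = fun _ => (0 : ℝ) := by funext x; simp
    rw [this]; simp [pd]
  | cons t l ih =>
    have h1 : evx (t :: l) = fun x => mon t x + evx l x := by funext x; exact evx_cons t l x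
    have hp : ∀ i : Fin 3, HasFDerivAt (fun x : Fin 3 → ℝ => x i) (ContinuousLinearMap.proj i : (Fin 3 → ℝ) →L[ℝ] ℝ) x :=
      fun i => hasFDerivAt_apply i x
    have hm : HasFDerivAt (fun y => mon t y) _ x :=
      ((((hp 0).pow t.2.1).mul ((hp 1).pow t.2.2.1)).mul ((hp 2).pow t.2.2.2)).const_mul (t.1 : ℝ)
    have h2 : fderiv ℝ (fun x => mon t x + evx l x) x = fderiv ℝ (fun x => mon t x) x + fderiv ℝ (evx l) x :=
      fderiv_add hm.differentiableAt ((contDiff_evx (n := 1) l).differentiable (by norm_num) x)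
    have e0 : pd 0 (t :: l) = (t.2.1 * t.1, t.2.1 - 1, t.2.2.1, t.2.2.2) :: pd 0 l := rfl
    have e1 : pd 1 (t :: l) = (t.2.2.1 * t.1, t.2.1, t.2.2.1 - 1, t.2.2.2) :: pd 1 l := rfl
    have e2 : pd 2 (t :: l) = (t.2.2.2 * t.1, t.2.1, t.2.2.1, t.2.2.2 - 1) :: pd 2 l := rfl
    rw [h1, h2, hm.fderiv, e0, e1, e2, evx_cons, evx_cons, evx_cons, add_apply, ih]
    simp [mon]
    ring

theorem DD_evx (k : Fin 3) (l : PX) : DD k (evx l) = evx (dd k l) := by
  funext x
  unfold DD
  rw [fderiv_evx]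
  unfold dd
  rw [evx_append, evx_scale]
  fin_cases k <;> (simp; try ring)

theorem KI_add {F G : (Fin 3 → ℝ) → ℝ} (hF : Continuous F) (hG : Continuous G) :
    KI (fun x => F x + G x) = KI F + KI G := by
  unfold KI
  have hc : ∀ {H : (Fin 3 → ℝ) → ℝ}, Continuous H → ∀ s : ℝ, Continuous fun t : ℝ => H ![s, t, 1 - s - t] := by
    intro H hH s
    exact hH.comp (by fun_prop)
  have h1 : ∀ s : ℝ, (∫ t in (0 : ℝ)..(1 - s), (F ![s, t, 1 - s - t] + G ![s, t, 1 - s - t])) =
      (∫ t in (0 : ℝ)..(1 - s), F ![s, t, 1 - s - t]) + ∫ t in (0 : ℝ)..(1 - s), G ![s, t, 1 - s - t] := by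
    intro s
    exact intervalIntegral.integral_add ((hc hF s).intervalIntegrable _ _) ((hc hG s).intervalIntegrable _ _)
  simp only [h1]
  have h2 : ∀ {H : (Fin 3 → ℝ) → ℝ}, Continuous H →
      Continuous fun s : ℝ => ∫ t in (0 : ℝ)..(1 - s), H ![s, t, 1 - s - t] := by
    intro H hH
    refine intervalIntegral.continuous_parametric_intervalIntegral_of_continuous ?_ (by fun_prop)
    exact hH.comp (by fun_prop)
  exact intervalIntegral.integral_add ((h2 hF).intervalIntegrable _ _) ((h2 hG).intervalIntegrable _ _)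

theorem KI_smul (c : ℝ) (F : (Fin 3 → ℝ) → ℝ) : KI (fun x => c * F x) = c * KI F := by
  unfold KI
  simp only [intervalIntegral.integral_const_mul]

theorem KI_zero : KI (fun _ => 0) = 0 := by
  unfold KI; simp

/-- DIR: integrals of monomials over the simplex -/
def DirStmt : Prop :=
  ∀ a b c : ℕ, KI (fun x => x 0 ^ a * x 1 ^ b * x 2 ^ c) =
    (a.factorial * b.factorial * c.factorial : ℕ) / ((a + b + c + 2).factorial : ℝ)

theorem KI_evx (h : DirStmt) (l : PX) : KI (evx l) = ((PX.int l : ℚ) : ℝ) := by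
  induction l with
  | nil =>
    have : evx [] = fun _ => (0 : ℝ) := by funext x; simp
    rw [this, KI_zero]; simp [PX.int]
  | cons t l ih =>
    have h1 : evx (t :: l) = fun x => mon t x + evx l x := by funext x; exact evx_cons t l x
    have h2 : Continuous fun x => mon t x := by unfold mon; fun_prop
    have h3 : PX.int (t :: l) = (t.1 : ℚ) * ((t.2.1.factorial * t.2.2.1.factorial * t.2.2.2.factorial : ℕ) : ℚ)
      / ((t.2.1 + t.2.2.1 + t.2.2.2 + 2).factorial : ℚ) + PX.int l := by simp [PX.int]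
    rw [h1, KI_add h2 (continuous_evx l), ih, h3]
    have h4 : KI (fun x => mon t x) = (t.1 : ℝ) * KI (fun x => x 0 ^ t.2.1 * x 1 ^ t.2.2.1 * x 2 ^ t.2.2.2) := by
      unfold mon; exact KI_smul _ _
    rw [h4, h]
    push_cast
    ring

end Pool.TRI.A
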