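import Pool.Agent.H69.TRI.Defs

/-!
# Block A of project TRI: statements (part M: the exit time near the equilateral triangle)
-/

open MeasureTheory Set Filter Topology InnerProductSpace Metric
open scoped Real ComplexConjugate ContDiff Laplacian

namespace Pool.TRI.A

/-- the bound for `‖β‖` -/
noncomputable def sA : ℝ := 1005 / 1000000

/-- the coefficients `18 c k = 1 + ‖β‖^2 - 4 re (ω^k β)` of `Tb β` are ordered and nearly equal -/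
structure Near (β : ℂ) : Prop where
  lt : ‖β‖ < 1
  o1 : β.re ≤ (om * β).re
  o2 : (om * β).re ≤ (om ^ 2 * β).re
  nr : (1 - 6 / 1000) * (1 + ‖β‖ ^ 2 - 4 * β.re) ≤ 1 + ‖β‖ ^ 2 - 4 * (om ^ 2 * β).re

/-- GEO1: elementary facts on `om` and `X` -/
def Geo1Stmt : Prop :=
  om ^ 3 = 1 ∧ 1 + om + om ^ 2 = 0 ∧ conj om = om ^ 2 ∧ ‖om‖ = 1 ∧
  (∀ w, X 0 w + X 1 w + X 2 w = 3) ∧
  (∀ k w, X (k + 1) (om * w) = X k w) ∧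
  (∀ w, E w = 1 - 3 / 4 * ‖w‖ ^ 2 + (w ^ 3).re / 4) ∧
  (∀ w, F0 w = 2 / 3 - ‖w‖ ^ 2 / 2 + (w ^ 3).re / 6) ∧
  (∀ w, E (om * w) = E w) ∧
  (∀ w ∈ Sg, ‖w‖ ≤ 2) ∧ (∀ w ∈ Sg, w.im ^ 2 ≤ 3) ∧ (∀ w, ‖w‖ ≤ 1 → w ∈ Sg)

/-- GEO2: symmetries of the data -/
def Geo2Stmt : Prop :=
  (∀ w, f (om * w) = om * f w) ∧ (∀ w, Bm (om * w) = Bm w) ∧ (∀ w, f w = ev fl w / (8 * 10 ^ 8)) ∧
  (∀ β ζ, hh (om * ζ) = hh ζ ∧ HH β (om * ζ) = HH β ζ)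

/-- SMALL -/
def SmallStmt : Prop := ∀ β, Near β → ‖β‖ ≤ sA

/-- BARY: the barycentric data of `Tb β` -/
def BaryTbStmt : Prop :=
  ∀ β : ℂ, ‖β‖ < 1 → ∃ B : Bary (Tb β),
    (∀ k ζ, B.x k ζ = X k (aff β ζ) / 3) ∧
    (∀ k : Fin 3, B.c k = (1 + ‖β‖ ^ 2 - 4 * (om ^ (k : ℕ) * β).re) / 18)

/-- TOP: topology of `Tb β` -/
def TopTbStmt : Prop :=
  ∀ β : ℂ, ‖β‖ < 1 → IsOpen (Tb β) ∧ Bornology.IsBounded (Tb β) ∧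
    closure (Tb β) = {ζ | ∀ k, 0 ≤ X k (aff β ζ)} ∧
    (∀ ζ, ζ ∈ frontier (Tb β) ↔ (∀ k, 0 ≤ X k (aff β ζ)) ∧ ∃ k, X k (aff β ζ) = 0)

/-- FRAME: every triangle with barycentric data is similar to a triangle `Tb β` -/
def FrameStmt : Prop :=
  ∀ (T : Set ℂ) (B : Bary T) (u : ℂ → ℝ), IsExit T u →
    ∃ (β : ℂ) (v : ℂ → ℝ) (m : ℝ), ‖β‖ < 1 ∧ IsExit (Tb β) v ∧ 0 < m ∧
      (∀ k : Fin 3, B.c k * m = (1 + ‖β‖ ^ 2 - 4 * (om ^ (k : ℕ) * β).re) / 18) ∧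
      sSup (u '' T) = m * sSup (v '' Tb β)

/-- the conclusion of the first level: two-sided first order approximation -/
def L1 (β : ℂ) (v : ℂ → ℝ) : Prop :=
  ∀ ζ, (∀ k, 0 ≤ X k (aff β ζ)) → |(1 + ‖β‖ ^ 2) * v ζ - pp β (aff β ζ)| ≤ ‖β‖ * Bm (aff β ζ)

/-- LEV1 -/
def Lev1Stmt : Prop := ∀ β v, Near β → IsExit (Tb β) v → L1 β v

/-- T1: average of `F0` over the three copies -/
def T1Stmt : Prop := ∀ β ζ : ℂ,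
  (F0 (aff β ζ) + F0 (aff (om * β) ζ) + F0 (aff (om ^ 2 * β) ζ)) / 3 =
    F0 ζ - ‖β‖ ^ 2 * ‖ζ‖ ^ 2 / 2 + ((β * conj ζ) ^ 3).re / 6

/-- T2: average of the first order corrector -/
def T2Stmt : Prop := ∀ β ζ : ℂ, ‖β‖ ≤ sA →
  |((β * f (aff β ζ)).re + (om * β * f (aff (om * β) ζ)).re + (om ^ 2 * β * f (aff (om ^ 2 * β) ζ)).re) / 3
      - ‖β‖ ^ 2 * (ζ * fwb ζ).re| ≤ 10102 / 10000 * ‖β‖ ^ 3 * D2 ‖ζ‖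

/-- NB: slope of the barrier -/
def NBStmt : Prop := ∀ w ∈ Sg, Bm w ≤ X 0 w * GB (w.im ^ 2)

noncomputable def GD (v : ℝ) : ℝ := (10021 / 10000 + v) * (365 / 100000 + 1372 / 100000 * v)

/-- T3: average of the barrier on the side `X 0 = 0` -/
def T3Stmt : Prop := ∀ β ζ : ℂ, ‖β‖ ≤ sA →
  aff β ζ ∈ Sg → aff (om * β) ζ ∈ Sg → aff (om ^ 2 * β) ζ ∈ Sg → X 0 (aff β ζ) = 0 →
  (Bm (aff β ζ) + Bm (aff (om * β) ζ) + Bm (aff (om ^ 2 * β) ζ)) / 3 ≤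
    ‖β‖ * ‖ζ‖ * (GB (ζ.im ^ 2) + ‖β‖ * ‖ζ‖ * GD (ζ.im ^ 2))

/-- N4: the numerical inequality near the side `X 0 = 0` -/
def N4Stmt : Prop := ∀ ζ ∈ Sg, ∀ s : ℝ, 0 ≤ s → s ≤ sA → 1 + ζ.re ≤ s * ‖ζ‖ →
  s * ‖ζ‖ ^ 3 / 6 + 10102 / 10000 * s * D2 ‖ζ‖ + s ^ 2 * |(ζ * fwb ζ).re|
    + ‖ζ‖ * (GB (ζ.im ^ 2) + s * ‖ζ‖ * GD (ζ.im ^ 2))
    ≤ hh ζ + ‖ζ‖ ^ 2 / 2 - (ζ * fwb ζ).re

/-- J0: boundary inequality of the second level, on the side `X 0 = 0` of the first copy -/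
def J0Stmt : Prop := ∀ β ζ : ℂ, ‖β‖ ≤ sA →
  aff β ζ ∈ Sg → aff (om * β) ζ ∈ Sg → aff (om ^ 2 * β) ζ ∈ Sg → X 0 (aff β ζ) = 0 →
  (F0 (aff β ζ) + F0 (aff (om * β) ζ) + F0 (aff (om ^ 2 * β) ζ)
    + (β / (1 + ‖β‖ ^ 2 : ℝ) * f (aff β ζ)).re + (om * β / (1 + ‖β‖ ^ 2 : ℝ) * f (aff (om * β) ζ)).re
    + (om ^ 2 * β / (1 + ‖β‖ ^ 2 : ℝ) * f (aff (om ^ 2 * β) ζ)).re
    + ‖β‖ * (Bm (aff β ζ) + Bm (aff (om * β) ζ) + Bm (aff (om ^ 2 * β) ζ))) / 3 ≤ HH β ζ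

/-- J: boundary inequality of the second level -/
def JStmt : Prop := ∀ β ζ : ℂ, ‖β‖ ≤ sA →
  aff β ζ ∈ Sg → aff β (om * ζ) ∈ Sg → aff β (om ^ 2 * ζ) ∈ Sg →
  (∃ k, X k (aff β ζ) = 0 ∨ X k (aff β (om * ζ)) = 0 ∨ X k (aff β (om ^ 2 * ζ)) = 0) →
  (pp β (aff β ζ) + pp β (aff β (om * ζ)) + pp β (aff β (om ^ 2 * ζ))
    + ‖β‖ * (Bm (aff β ζ) + Bm (aff β (om * ζ)) + Bm (aff β (om ^ 2 * ζ)))) / 3 ≤ HH β ζ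

/-- U0: the value at the centre -/
def U0Stmt : Prop := ∀ β v, ‖β‖ ≤ sA → IsExit (Tb β) v → L1 β v → (1 + ‖β‖ ^ 2) * v 0 ≤ HH β 0

/-- HD: half-disc barrier -/
def HalfDiscStmt : Prop :=
  ∀ (q : ℂ → ℝ) (U : Set ℂ) (R b σ : ℝ) (a : ℂ), IsOpen U → ContDiffOn ℝ 2 q U → 0 < R → closedBall 0 R ⊆ U →
    (∀ z ∈ closedBall (0 : ℂ) R, |q z| ≤ b) → (∀ z ∈ closedBall (0 : ℂ) R, |(1 / 2 : ℝ) * (Δ q) z| ≤ σ) → ‖a‖ < R →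
    |q a - q 0| ≤ ‖a‖ * (2 * b / (R - ‖a‖ / 2) + σ * (R - ‖a‖ / 2))

/-- SRC: the source in the disc -/
def SrcStmt : Prop := ∀ β ζ : ℂ, ‖β‖ ≤ sA → ‖ζ‖ ≤ 1 / 2 →
  |(1 + ‖β‖ ^ 2) + (1 / 2 : ℝ) * (Δ fun z => pp β (aff β z)) ζ| ≤ 47 / 10000 * ‖β‖

/-- BSM: size of the barrier and of `f` -/
def BsmStmt : Prop :=
  (∀ w : ℂ, ‖w‖ ≤ 5006 / 10000 → Bm w ≤ 158 / 100000) ∧ (∀ w ∈ Sg, Bm w ≤ 1) ∧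
  (∀ w ∈ Sg, ‖f w‖ ≤ 11) ∧
  (∀ w : ℂ, ‖w‖ ≤ 5 / 1000 → ‖f w‖ ≤ 6974 / 10000 * ‖w‖) ∧
  (∀ w : ℂ, ‖w‖ ≤ 4 / 10 → ‖f w‖ ≤ 85 / 100 * ‖w‖)

/-- NORM: the exit time in normalised form -/
def NormStmt : Prop := ∀ β v, Near β → IsExit (Tb β) v → ∀ ζ ∈ Tb β,
  (1 + ‖β‖ ^ 2) * v ζ ≤ 2 / 3 * (1 + 398 / 10000 * (24 * ‖β‖ ^ 2 / (1 + ‖β‖ ^ 2) ^ 2))

/-- `e^2` of a triangle -/
noncomputable def e2 {T : Set ℂ} (B : Bary T) : ℝ :=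
  ((B.c 0 - (B.c 0 + B.c 1 + B.c 2) / 3) ^ 2 + (B.c 1 - (B.c 0 + B.c 1 + B.c 2) / 3) ^ 2
    + (B.c 2 - (B.c 0 + B.c 1 + B.c 2) / 3) ^ 2) / ((B.c 0 + B.c 1 + B.c 2) / 3) ^ 2

/-- NEARM: the exit time near the equilateral triangle -/
def NearMStmt : Prop :=
  ∀ (T : Set ℂ) (B : Bary T) (u : ℂ → ℝ), IsExit T u →
    B.c 2 ≤ B.c 1 → B.c 1 ≤ B.c 0 → (1 - 6 / 1000) * B.c 0 ≤ B.c 2 →
    9 * (B.c 0 + B.c 1 + B.c 2) * sSup (u '' T) ≤ 1 + 398 / 10000 * e2 B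

/-- NEARL: the eigenvalue near the equilateral triangle -/
def NearLStmt : Prop :=
  ∀ (T : Set ℂ) (B : Bary T), B.c 2 ≤ B.c 1 → B.c 1 ≤ B.c 0 → (1 - 6 / 1000) * B.c 0 ≤ B.c 2 →
    lambda1 T ≤ 8 * π ^ 2 * ((B.c 0 + B.c 1 + B.c 2) / 3) * (1 - 399 / 10000 * e2 B)

end Pool.TRI.A
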