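import Pool.Agent.H69.TRI.Stmts

/-!
# Block A of project TRI: statements (part L: the eigenvalue near the equilateral triangle, and the equality case)
-/

open MeasureTheory Set Filter Topology InnerProductSpace Metric
open scoped Real ComplexConjugate ContDiff Laplacian

namespace Pool.TRI.A

/-- integral over the simplex `x 0 + x 1 + x 2 = 1`, in the coordinates `x 0, x 1` -/
noncomputable def KI (F : (Fin 3 → ℝ) → ℝ) : ℝ := ∫ s in (0 : ℝ)..1, ∫ t in (0 : ℝ)..(1 - s), F ![s, t, 1 - s - t]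

/-- derivative in the direction `e (k+1) - e (k+2)` -/
noncomputable def DD (k : Fin 3) (F : (Fin 3 → ℝ) → ℝ) (x : Fin 3 → ℝ) : ℝ :=
  fderiv ℝ F x (Pi.single (k + 1) 1 - Pi.single (k + 2) 1)

/-- `F` vanishes on the boundary lines of the simplex -/
def VB (F : (Fin 3 → ℝ) → ℝ) : Prop := ∀ x : Fin 3 → ℝ, x 0 + x 1 + x 2 = 1 → (∃ k, x k = 0) → F x = 0

/-- CHV: change of variables -/
def ChvStmt : Prop :=
  ∀ (T : Set ℂ) (B : Bary T) (F : (Fin 3 → ℝ) → ℝ), Continuous F →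
    ∫ z in T, F (fun k => B.x k z) = KI F / |(B.g 0 * conj (B.g 1)).im|

/-- GRAD: gradient in barycentric coordinates -/
def GradStmt : Prop :=
  ∀ (T : Set ℂ) (B : Bary T) (F : (Fin 3 → ℝ) → ℝ) (z : ℂ), DifferentiableAt ℝ F (fun k => B.x k z) →
    ‖fderiv ℝ (fun z => F (fun k => B.x k z)) z‖ ^ 2 = ∑ k, B.c k * DD k F (fun i => B.x i z) ^ 2

/-- LAPB: Laplacian in barycentric coordinates -/
def LapBStmt : Prop :=
  ∀ (T : Set ℂ) (B : Bary T) (F : (Fin 3 → ℝ) → ℝ), ContDiff ℝ 2 F → ∀ z,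
    (Δ fun z => F (fun k => B.x k z)) z = ∑ k, B.c k * DD k (DD k F) (fun i => B.x i z)

/-- RAYK: upper bound for the first eigenvalue with a trial function given in barycentric coordinates -/
def RayKStmt : Prop :=
  ∀ (T : Set ℂ) (B : Bary T) (F : (Fin 3 → ℝ) → ℝ), ContDiff ℝ ∞ F → VB F → 0 < KI (fun x => F x ^ 2) →
    lambda1 T * KI (fun x => F x ^ 2) ≤ ∑ k, B.c k * KI (fun x => DD k F x ^ 2)

/-- PERM: invariance of `KI` under permutations of the coordinates -/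
def PermStmt : Prop :=
  ∀ (F : (Fin 3 → ℝ) → ℝ), Continuous F →
    KI (fun x => F (fun i => x (i + 1))) = KI F ∧ KI (fun x => F ![x 0, x 2, x 1]) = KI F

/-- IBP: integration by parts -/
def IbpStmt : Prop :=
  ∀ (k : Fin 3) (F G : (Fin 3 → ℝ) → ℝ), ContDiff ℝ ∞ F → ContDiff ℝ ∞ G → VB G →
    KI (fun x => DD k F x * DD k G x) = - KI (fun x => DD k (DD k F) x * G x)

/-- the eigenfunction of the equilateral triangle -/
noncomputable def phi0 (x : Fin 3 → ℝ) : ℝ :=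
  Real.sin (2 * π * x 0) + Real.sin (2 * π * x 1) + Real.sin (2 * π * x 2)

/-- the corrector of the trial function -/
noncomputable def psi0 (x : Fin 3 → ℝ) : ℝ :=
  x 0 * x 1 * x 2 * (9 / 2 * x 0 ^ 4 + 4599 / 20 * x 0 ^ 3 * (x 1 + x 2) - 837 / 20 * x 0 ^ 2 * (x 1 ^ 2 + x 2 ^ 2)
    - 27 / 10 * x 0 ^ 2 * x 1 * x 2 - 2799 / 20 * x 0 * (x 1 ^ 3 + x 2 ^ 3) + 27 / 20 * x 0 * x 1 * x 2 * (x 1 + x 2)
    - 9 / 4 * (x 1 ^ 4 + x 2 ^ 4) - 90 * x 1 * x 2 * (x 1 ^ 2 + x 2 ^ 2) + 837 / 10 * x 1 ^ 2 * x 2 ^ 2)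

/-- the three correctors -/
noncomputable def psi (k : Fin 3) (x : Fin 3 → ℝ) : ℝ := psi0 (fun i => x (i + k))

/-- PHI: facts on `phi0` -/
def PhiStmt : Prop :=
  ContDiff ℝ ∞ phi0 ∧ VB phi0 ∧
  (∀ k x, DD k (DD k phi0) x = -(4 * π ^ 2) * (phi0 x - Real.sin (2 * π * x k))) ∧
  (∀ x : Fin 3 → ℝ, x 0 + x 1 + x 2 = 1 → phi0 x = 4 * Real.sin (π * x 0) * Real.sin (π * x 1) * Real.sin (π * x 2)) ∧
  KI (fun x => phi0 x ^ 2) = 3 / 4 ∧ (∀ k, KI (fun x => DD k phi0 x ^ 2) = 2 * π ^ 2)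

/-- PSI1: elementary facts on the correctors -/
def Psi1Stmt : Prop :=
  (∀ k, ContDiff ℝ ∞ (psi k)) ∧ (∀ k, VB (psi k)) ∧ (∀ x, psi 0 x + psi 1 x + psi 2 x = 0) ∧
  (∀ x, psi0 ![x 0, x 2, x 1] = psi0 x)

/-- PSI2: polynomial integrals -/
def Psi2Stmt : Prop :=
  KI (fun x => psi0 x ^ 2) = 15166161 / 1121120000 ∧
  KI (fun x => DD 0 psi0 x ^ 2 + DD 1 psi0 x ^ 2 + DD 2 psi0 x ^ 2) = 297947781 / 112112000

/-- PSI3: the integral of the corrector against the sine -/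
def Psi3Stmt : Prop :=
  KI (fun x => psi0 x * Real.sin (2 * π * x 0)) =
    36 / 25 / (2 * π) ^ 3 - 8559 / 5 / (2 * π) ^ 5 + 248832 / 5 / (2 * π) ^ 7

/-- QF: quadratic forms of the corrector `ψ = ∑ δ k ψ k`, `∑ δ = 0` -/
def QFStmt : Prop :=
  ∀ δ : Fin 3 → ℝ, δ 0 + δ 1 + δ 2 = 0 →
    KI (fun x => (∑ m, δ m * psi m x) ^ 2) = 3 / 2 * (15166161 / 1121120000) * ∑ m, δ m ^ 2 ∧
    ∑ k, KI (fun x => DD k (fun y => ∑ m, δ m * psi m y) x ^ 2) = 3 / 2 * (297947781 / 112112000) * ∑ m, δ m ^ 2 ∧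
    KI (fun x => phi0 x * ∑ m, δ m * psi m x) = 0 ∧
    ∑ k, δ k * KI (fun x => (∑ m, δ m * psi m x) * Real.sin (2 * π * x k)) =
      3 / 2 * KI (fun x => psi0 x * Real.sin (2 * π * x 0)) * ∑ m, δ m ^ 2

/-- NUM: the numerical inequality -/
def NumLStmt : Prop :=
  12 * π ^ 2 * (36 / 25 / (2 * π) ^ 3 - 8559 / 5 / (2 * π) ^ 5 + 248832 / 5 / (2 * π) ^ 7)
    + 3 / 2 * (297947781 / 112112000) * (1 + 402 / 100000) + 399 / 10000 * 6 * π ^ 2 + 1 / 1000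
    ≤ 12 * π ^ 2 * (15166161 / 1121120000)

/-- JAC: lower bound for the Rayleigh quotient from a positive solution (Jacobi, Barta) -/
def JacStmt : Prop :=
  ∀ (T : Set ℂ) (φ : ℂ → ℝ) (l : ℝ), IsOpen T → ContDiffOn ℝ ∞ φ T → (∀ z ∈ T, 0 < φ z) →
    (∀ z ∈ T, (Δ φ) z = - l * φ z) → ∀ v : ℂ → ℝ, IsTest T v →
    l * ∫ z, v z ^ 2 ≤ ∫ z, ‖fderiv ℝ v z‖ ^ 2

/-- EQM: the exit time of an equilateral triangle -/
def EqMStmt : Prop :=
  ∀ (T : Set ℂ) (B : Bary T) (u : ℂ → ℝ), IsExit T u → B.c 0 = B.c 1 → B.c 1 = B.c 2 →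
    B.c 0 * sSup (u '' T) = 1 / 27

/-- EQL: the eigenvalue of an equilateral triangle -/
def EqLStmt : Prop :=
  ∀ (T : Set ℂ) (B : Bary T), B.c 0 = B.c 1 → B.c 1 = B.c 2 → lambda1 T = 8 * π ^ 2 * B.c 0

end Pool.TRI.A
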