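import Pool.Agent.H69.TRI.PX

/-!
# Block A of project TRI: infrastructure statements and the statements on the polynomial certificates
-/

open MeasureTheory Set Filter Topology InnerProductSpace Metric
open scoped Real ComplexConjugate ContDiff Laplacian

namespace Pool.TRI.A

/-- MAXP: the weak maximum principle -/
def MaxPStmt : Prop :=
  ∀ (U : Set ℂ) (v : ℂ → ℝ), IsOpen U → Bornology.IsBounded U → ContinuousOn v (closure U) → ContDiffOn ℝ 2 v U →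
    (∀ z ∈ U, 0 ≤ (Δ v) z) → (∀ z ∈ frontier U, v z ≤ 0) → ∀ z ∈ closure U, v z ≤ 0

/-- LAPD: the Laplacian through one-dimensional derivatives -/
def LapDStmt : Prop :=
  ∀ (f : ℂ → ℝ) (z : ℂ), ContDiffAt ℝ 2 f z →
    (Δ f) z = deriv (deriv fun t : ℝ => f (z + t)) 0 + deriv (deriv fun t : ℝ => f (z + t * Complex.I)) 0

/-- LAPSIM: the Laplacian and similarities -/
def LapSimStmt : Prop :=
  (∀ (f : ℂ → ℝ) (κ c z : ℂ), ContDiffAt ℝ 2 f (c + κ * z) →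
    (Δ fun w => f (c + κ * w)) z = ‖κ‖ ^ 2 * (Δ f) (c + κ * z)) ∧
  (∀ (f : ℂ → ℝ) (κ c z : ℂ), ContDiffAt ℝ 2 f (c + κ * conj z) →
    (Δ fun w => f (c + κ * conj w)) z = ‖κ‖ ^ 2 * (Δ f) (c + κ * conj z))

/-- `∂²/∂w²`, `∂²/∂w∂(conj w)`, `∂²/∂(conj w)²` of `ev l` -/
def lww (l : List (ℤ × ℕ × ℕ)) : List (ℤ × ℕ × ℕ) := l.map fun t => (t.1 * t.2.1 * (t.2.1 - 1), t.2.1 - 2, t.2.2)
def lwb (l : List (ℤ × ℕ × ℕ)) : List (ℤ × ℕ × ℕ) := l.map fun t => (t.1 * t.2.1 * t.2.2, t.2.1 - 1, t.2.2 - 1)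
def lbb (l : List (ℤ × ℕ × ℕ)) : List (ℤ × ℕ × ℕ) := l.map fun t => (t.1 * t.2.2 * (t.2.2 - 1), t.2.1, t.2.2 - 2)

/-- LAPW: the Laplacian of a polynomial in `w = aff β ζ` and `conj w` -/
def LapWStmt : Prop :=
  ∀ (l : List (ℤ × ℕ × ℕ)) (κ β ζ : ℂ),
    (Δ fun z => (κ * ev l (aff β z)).re) ζ =
      (κ * (4 * β * ev (lww l) (aff β ζ) + 4 * (1 + ‖β‖ ^ 2 : ℝ) * ev (lwb l) (aff β ζ)
        + 4 * conj β * ev (lbb l) (aff β ζ))).re

/-- RAY: trial functions which are continuous, smooth in the domain and zero outside -/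
def RayStmt : Prop :=
  ∀ (Ω : Set ℂ) (φ : ℂ → ℝ), IsOpen Ω → Bornology.IsBounded Ω → Continuous φ → ContDiffOn ℝ ∞ φ Ω →
    (∀ z ∉ Ω, φ z = 0) → (∃ K, ∀ z ∈ Ω, ‖fderiv ℝ φ z‖ ≤ K) →
    lambda1 Ω * ∫ z in Ω, φ z ^ 2 ≤ ∫ z in Ω, ‖fderiv ℝ φ z‖ ^ 2

/-- the point of the `w`-plane with barycentric coordinates `x` -/
noncomputable def W (x : Fin 3 → ℝ) : ℂ := 2 * ((x 0 : ℂ) + om * x 1 + om ^ 2 * x 2)

/-- data: `10^8 * re (g (W x))` as a homogeneous polynomial of degree 9 -/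
def gX : PX :=
  [(257918646, 9, 0, 0), (1367584971, 8, 1, 0), (1367584971, 8, 0, 1), (4222220442, 7, 2, 0), (9059096664, 7, 1, 1),
    (4222220442, 7, 0, 2), (6226876458, 6, 3, 0), (19203777906, 6, 2, 1), (19203777906, 6, 1, 2),
    (6226876458, 6, 0, 3), (5179081278, 5, 4, 0), (24565851300, 5, 3, 1), (39161795436, 5, 2, 2),
    (24565851300, 5, 1, 3), (5179081278, 5, 0, 4), (1706385936, 4, 5, 0), (11470226652, 4, 4, 1),
    (28003638036, 4, 3, 2), (28003638036, 4, 2, 3), (11470226652, 4, 1, 4), (1706385936, 4, 0, 5),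
    (-1501632450, 3, 6, 0), (-3268196880, 3, 5, 1), (-2273630478, 3, 4, 2), (-2273630478, 3, 2, 4),
    (-3268196880, 3, 1, 5), (-1501632450, 3, 0, 6), (-1561191978, 2, 7, 0), (-8126615514, 2, 6, 1),
    (-19580897718, 2, 5, 2), (-25730007558, 2, 4, 3), (-25730007558, 2, 3, 4), (-19580897718, 2, 2, 5),
    (-8126615514, 2, 1, 6), (-1561191978, 2, 0, 7), (-652894284, 1, 8, 0), (-4529548332, 1, 7, 1),
    (-11077162392, 1, 6, 2), (-21297654420, 1, 5, 3), (-22940453304, 1, 4, 4), (-21297654420, 1, 3, 5),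
    (-11077162392, 1, 2, 6), (-4529548332, 1, 1, 7), (-652894284, 1, 0, 8), (-128959323, 0, 9, 0),
    (-714690687, 0, 8, 1), (-2661028464, 0, 7, 2), (-4725244008, 0, 6, 3), (-6885467214, 0, 5, 4),
    (-6885467214, 0, 4, 5), (-4725244008, 0, 3, 6), (-2661028464, 0, 2, 7), (-714690687, 0, 1, 8),
    (-128959323, 0, 0, 9)]

/-- data: `re (ev bl (W x))` as a homogeneous polynomial of degree 9 -/
def bX : PX :=
  [(11345656, 9, 0, 0), (-53313900, 8, 1, 0), (-53313900, 8, 0, 1), (137769636, 7, 2, 0), (320909904, 7, 1, 1),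
    (137769636, 7, 0, 2), (-152723220, 6, 3, 0), (-548402928, 6, 2, 1), (-548402928, 6, 1, 2), (-152723220, 6, 0, 3),
    (116387556, 5, 4, 0), (774817584, 5, 3, 1), (847594584, 5, 2, 2), (774817584, 5, 1, 3), (116387556, 5, 0, 4),
    (116387556, 4, 5, 0), (-596127816, 4, 4, 1), (-96408588, 4, 3, 2), (-96408588, 4, 2, 3), (-596127816, 4, 1, 4),
    (116387556, 4, 0, 5), (-152723220, 3, 6, 0), (774817584, 3, 5, 1), (-96408588, 3, 4, 2), (273613920, 3, 3, 3),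
    (-96408588, 3, 2, 4), (774817584, 3, 1, 5), (-152723220, 3, 0, 6), (137769636, 2, 7, 0), (-548402928, 2, 6, 1),
    (847594584, 2, 5, 2), (-96408588, 2, 4, 3), (-96408588, 2, 3, 4), (847594584, 2, 2, 5), (-548402928, 2, 1, 6),
    (137769636, 2, 0, 7), (-53313900, 1, 8, 0), (320909904, 1, 7, 1), (-548402928, 1, 6, 2), (774817584, 1, 5, 3),
    (-596127816, 1, 4, 4), (774817584, 1, 3, 5), (-548402928, 1, 2, 6), (320909904, 1, 1, 7), (-53313900, 1, 0, 8),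
    (11345656, 0, 9, 0), (-53313900, 0, 8, 1), (137769636, 0, 7, 2), (-152723220, 0, 6, 3), (116387556, 0, 5, 4),
    (116387556, 0, 4, 5), (-152723220, 0, 3, 6), (137769636, 0, 2, 7), (-53313900, 0, 1, 8), (11345656, 0, 0, 9)]

/-- LX: the complex lists in barycentric coordinates -/
def LXStmt : Prop :=
  (∀ x : Fin 3 → ℝ, x 0 + x 1 + x 2 = 1 →
    (∀ k, X k (W x) = 3 * x k) ∧ E (W x) = 27 * (x 0 * x 1 * x 2) ∧
    (g (W x)).re = evx gX x / 10 ^ 8 ∧ (om * g (W x)).re = evx (PX.rot gX) x / 10 ^ 8 ∧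
    (ev bl (W x)).re = evx bX x) ∧
  (∀ w : ℂ, (∑ k, X k w / 3) = 1 ∧ W (fun k => X k w / 3) = w)

/-- `x 0 * x 1 * x 2` -/
def e3 : PX := [(1, 1, 1, 1)]

/-- data of the first level, `NN = 2 * 4157 * 10 ^ 8` times the real polynomials -/
def lF1 : PX := PX.scale (-27 * 4157) (PX.mul e3 gX)
def lF2 : PX := PX.scale (27 * 4157) (PX.mul e3 (PX.rot gX))
def lFB : PX := PX.scale 97200 (PX.mul e3 bX)
noncomputable def NN : ℝ := 2 * 4157 * 10 ^ 8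

/-- `NN` times the corrector of the first level, `sg = 1` (supersolution) or `sg = -1` (subsolution) -/
noncomputable def QQ (sg b1 b2 : ℝ) (k : Fin 3) (x : Fin 3 → ℝ) : ℝ :=
  b1 * evx (PX.dd k (PX.dd k lF1)) x + b2 * evx (PX.dd k (PX.dd k lF2)) x
    + sg * (b1 + b2) * evx (PX.dd k (PX.dd k lFB)) x

/-- `δ` in chamber coordinates -/
def dl (b1 b2 : ℝ) : Fin 3 → ℝ := ![2 * b1 + b2, b2 - b1, -b1 - 2 * b2]

/-- CERT: the polynomial certificate of the first level -/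
def CertStmt : Prop :=
  ∀ x : Fin 3 → ℝ, (∀ k, 0 ≤ x k) → x 0 + x 1 + x 2 = 1 →
    ∀ b1 b2 : ℝ, 0 ≤ b1 → 0 ≤ b2 → b1 + b2 ≤ 201 / 100000 →
    (∑ k, (1 + dl b1 b2 k) * QQ 1 b1 b2 k x ≤ 36 * NN * ∑ k, dl b1 b2 k * x k) ∧
    (36 * NN * ∑ k, dl b1 b2 k * x k ≤ ∑ k, (1 + dl b1 b2 k) * QQ (-1) b1 b2 k x)

/-- CERTB: positivity of the barrier and its slope at the side `X 0 = 0` -/
def CertBStmt : Prop :=
  ∀ x : Fin 3 → ℝ, (∀ k, 0 ≤ x k) → x 0 + x 1 + x 2 = 1 →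
    0 ≤ evx bX x ∧ 9 * x 1 * x 2 * (evx bX x / 10 ^ 8) ≤ GB (3 * (x 1 - x 2) ^ 2)

/-- NEAR: the inequality near the equilateral triangle -/
def NearOrdStmt : Prop :=
  ∀ (T : Set ℂ) (B : Bary T) (u : ℂ → ℝ), IsExit T u →
    B.c 2 ≤ B.c 1 → B.c 1 ≤ B.c 0 → (1 - 6 / 1000) * B.c 0 ≤ B.c 2 → ¬ (B.c 0 = B.c 1 ∧ B.c 1 = B.c 2) →
    lambda1 T * sSup (u '' T) < 8 * π ^ 2 / 27

end Pool.TRI.A
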